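import Pool.Agent.Helper472.Mesh.Par

open Classical

namespace Pool.Agent.Helper472.Mesh

variable {n : ℕ}

lemma cells_sub {Q : Rect} (hx : Q.x + Q.w ≤ n) (hy : Q.y + Q.h ≤ n) :
    Q.cells ⊆ Finset.range n ×ˢ Finset.range n := by
  intro c hc
  simp only [Rect.cells, Finset.mem_product, Finset.mem_Ico, Finset.mem_range] at hc ⊢
  omega

/-- jobs running at the same time occupy disjoint rectangles -/
lemma run_card {I : Inst n} {S : Sched} (hS : I.Feasible S) (J : Finset ℕ)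
    (hJ : ∀ j ∈ J, j < I.N) (t : ℝ) (h1 : ∀ j ∈ J, S.start j ≤ t)
    (h2 : ∀ j ∈ J, t < I.finish S j) :
    ((J.biUnion (fun j => (S.rect j).cells)).card : ℝ) =
      ∑ j ∈ J, ((S.rect j).w : ℝ) * (S.rect j).h := by
  rw [Finset.card_biUnion]
  · push_cast
    apply Finset.sum_congr rfl
    intro j _
    rw [Rect.card_cells]
    push_cast
    rfl
  · intro i hi j hj hij
    exact hS.excl i (hJ i hi) j (hJ j hj) hij t (h1 i hi) (h2 i hi) (h1 j hj) (h2 j hj)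

lemma run_card_le {I : Inst n} {S : Sched} (hS : I.Feasible S) (J : Finset ℕ)
    (hJ : ∀ j ∈ J, j < I.N) (t : ℝ) (h1 : ∀ j ∈ J, S.start j ≤ t)
    (h2 : ∀ j ∈ J, t < I.finish S j) :
    ∑ j ∈ J, ((S.rect j).w : ℝ) * (S.rect j).h ≤ (n : ℝ) ^ 2 := by
  rw [← run_card hS J hJ t h1 h2]
  have : (J.biUnion (fun j => (S.rect j).cells)) ⊆ Finset.range n ×ˢ Finset.range n := by
    intro c hc
    obtain ⟨j, hj, hc⟩ := Finset.mem_biUnion.1 hc
    exact cells_sub (hS.x_le j (hJ j hj)) (hS.y_le j (hJ j hj)) hc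
  have h3 := Finset.card_le_card this
  rw [Finset.card_product, Finset.card_range] at h3
  calc ((J.biUnion (fun j => (S.rect j).cells)).card : ℝ) ≤ ((n * n : ℕ) : ℝ) := by
        exact_mod_cast h3
    _ = (n : ℝ) ^ 2 := by push_cast; ring

lemma inter_biUnion_card {R : Finset ℕ} {f : ℕ → Finset (ℕ × ℕ)} {Q : Finset (ℕ × ℕ)} {c : ℝ}
    (h : ∀ j ∈ R, ((Q ∩ f j).card : ℝ) ≤ c) :
    ((Q ∩ R.biUnion f).card : ℝ) ≤ ((R.filter (fun j => ¬ Disjoint Q (f j))).card : ℝ) * c := by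
  have h1 : Q ∩ R.biUnion f ⊆ (R.filter (fun j => ¬ Disjoint Q (f j))).biUnion
      (fun j => Q ∩ f j) := by
    intro x hx
    obtain ⟨hxQ, hxR⟩ := Finset.mem_inter.1 hx
    obtain ⟨j, hj, hxj⟩ := Finset.mem_biUnion.1 hxR
    refine Finset.mem_biUnion.2 ⟨j, Finset.mem_filter.2 ⟨hj, ?_⟩, Finset.mem_inter.2 ⟨hxQ, hxj⟩⟩
    rw [Finset.not_disjoint_iff]
    exact ⟨x, hxQ, hxj⟩
  have h2 : ((Q ∩ R.biUnion f).card : ℝ) ≤
      ∑ j ∈ R.filter (fun j => ¬ Disjoint Q (f j)), ((Q ∩ f j).card : ℝ) := by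
    have := (Finset.card_le_card h1).trans Finset.card_biUnion_le
    exact_mod_cast this
  refine h2.trans ?_
  have h3 : ∑ j ∈ R.filter (fun j => ¬ Disjoint Q (f j)), ((Q ∩ f j).card : ℝ) ≤
      ∑ j ∈ R.filter (fun j => ¬ Disjoint Q (f j)), c := by
    apply Finset.sum_le_sum
    intro j hj
    exact h j (Finset.mem_filter.1 hj).1
  simpa using h3

/-- the set of leftovers -/
lemma exists_left (p : Par n) (R : Finset ℕ) (S : Sched) :
    ∃ L ⊆ R, (L.card : ℝ) ≤ R.card / p.M * (1 + Real.log ((n : ℝ) ^ 4)) ∧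
      ∀ Q : Rect, Q.x + Q.w ≤ n → Q.y + Q.h ≤ n → 1 ≤ Q.w → 1 ≤ Q.h →
        (∀ j ∈ L, Disjoint Q.cells (S.rect j).cells) →
        ((R.filter (fun j => ¬ Disjoint Q.cells (S.rect j).cells)).card : ℝ) < p.M := by
  let mk : (ℕ × ℕ) × (ℕ × ℕ) → Rect := fun e => ⟨e.1.1, e.1.2, e.2.1, e.2.2⟩
  let inc : (ℕ × ℕ) × (ℕ × ℕ) → Finset ℕ :=
    fun e => R.filter (fun j => ¬ Disjoint (mk e).cells (S.rect j).cells)
  let E₀ : Finset ((ℕ × ℕ) × (ℕ × ℕ)) :=
    (Finset.range n ×ˢ Finset.range n) ×ˢ (Finset.Icc 1 n ×ˢ Finset.Icc 1 n)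
  let E := E₀.filter (fun e => p.M ≤ ((inc e).card : ℝ))
  have hn1 : (1 : ℝ) ≤ n := by exact_mod_cast p.n_pos
  have hE : (E.card : ℝ) ≤ (n : ℝ) ^ 4 := by
    have h1 : E.card ≤ E₀.card := Finset.card_filter_le _ _
    have h2 : E₀.card = n * n * (n * n) := by
      simp [E₀, Finset.card_product]
    rw [h2] at h1
    calc (E.card : ℝ) ≤ ((n * n * (n * n) : ℕ) : ℝ) := by exact_mod_cast h1
      _ = (n : ℝ) ^ 4 := by push_cast; ring
  obtain ⟨L, hLR, hL, hLc⟩ := hitting R E inc p.M p.M_pos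
    (fun e he => ⟨Finset.filter_subset _ _, (Finset.mem_filter.1 he).2⟩) ((n : ℝ) ^ 4) hE
    (one_le_pow₀ hn1)
  refine ⟨L, hLR, hLc, ?_⟩
  intro Q hx hy hw hh hdis
  by_contra hcon
  push Not at hcon
  let e : (ℕ × ℕ) × (ℕ × ℕ) := ((Q.x, Q.y), (Q.w, Q.h))
  have he : e ∈ E := by
    simp only [E, E₀, Finset.mem_filter, Finset.mem_product, Finset.mem_range, Finset.mem_Icc, e]
    refine ⟨⟨⟨by omega, by omega⟩, ⟨hw, by omega⟩, ⟨hh, by omega⟩⟩, hcon⟩
  apply hL e he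
  rw [Finset.disjoint_left]
  intro j hj hjL
  exact (Finset.mem_filter.1 hj).2 (hdis j hjL)

/-- the next block may be released at time `σ` -/
structure Ready (A : Inst n → Sched) (B : Inst n) (D : Finset ℕ) (σ : ℝ) : Prop where
  lt : ∀ i ∈ D, i < B.N
  start_lt : ∀ i ∈ D, (A B).start i < σ
  fin_le : ∀ i ∈ D, B.finish (A B) i ≤ σ
  fin_eq : ∃ i ∈ D, B.finish (A B) i = σ

section ready

variable {A : Inst n → Sched} {B : Inst n} {D : Finset ℕ} {σ : ℝ} {N' a b : ℕ} {ℓ : ℕ → ℝ}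
    {hD : ∀ i ∈ D, i < B.N} {ha1 : 1 ≤ a} {han : a ≤ n} {hb1 : 1 ≤ b} {hbn : b ≤ n}
    {hℓ : ∀ j, 0 ≤ ℓ j}

lemma Ready.same (h : Ready A B D σ) :
    SameInfo B (addBlock B D N' a b ℓ hD ha1 han hb1 hbn hℓ) (A B) σ := by
  have hDn : ¬ D ⊆ B.done (A B) σ := by
    intro hsub
    obtain ⟨i, hi, hfi⟩ := h.fin_eq
    have := hsub hi
    simp only [Inst.done, Finset.mem_filter] at this
    linarith
  have hkn : (addBlock B D N' a b ℓ hD ha1 han hb1 hbn hℓ).known (B.done (A B) σ) =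
      B.known (B.done (A B) σ) := by
    ext j
    simp only [Inst.known, Finset.mem_filter, Finset.mem_range]
    by_cases hj : j < B.N
    · simp only [addBlock, hj, if_true, true_and]
      constructor
      · rintro ⟨_, h1⟩; exact h1
      · intro h1; exact ⟨by omega, h1⟩
    · simp only [addBlock, hj, if_false, false_and, iff_false, not_and]
      intro _
      exact hDn
  refine ⟨hkn, ?_, ?_, ?_⟩
  · intro j hj
    have hj' : j < B.N := by
      simp only [Inst.known, Finset.mem_filter, Finset.mem_range] at hj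
      exact hj.1
    simp [addBlock, hj']
  · intro j hj
    have hj' : j < B.N := by
      simp only [Inst.done, Finset.mem_filter, Finset.mem_range] at hj
      exact hj.1
    simp [addBlock, hj']
  · intro j hj hjd
    have hj' : j < B.N := by
      simp only [Inst.known, Finset.mem_filter, Finset.mem_range] at hj
      exact hj.1
    rw [addBlock_finish_old (A B) hj']
    by_contra hc
    push Not at hc
    exact hjd (by simp [Inst.done, hj', hc])

lemma Ready.agree (h : Ready A B D σ) (hA : Online A) {j : ℕ} (hj : j < B.N)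
    (hs : (A B).start j < σ) :
    (A (addBlock B D N' a b ℓ hD ha1 han hb1 hbn hℓ)).start j = (A B).start j ∧
    (A (addBlock B D N' a b ℓ hD ha1 han hb1 hbn hℓ)).rect j = (A B).rect j :=
  (hA.nonanticipating B _ σ h.same j).2 hj hs

lemma Ready.new_start (h : Ready A B D σ) (hA : Online A) {j : ℕ} (hj : ¬ j < B.N)
    (hj' : j < B.N + N') :
    σ ≤ (A (addBlock B D N' a b ℓ hD ha1 han hb1 hbn hℓ)).start j := by
  obtain ⟨i, hi, hfi⟩ := h.fin_eq
  have h1 := h.agree (N' := N') (a := a) (b := b) (ℓ := ℓ) (hD := hD) (ha1 := ha1) (han := han)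
    (hb1 := hb1) (hbn := hbn) (hℓ := hℓ) hA (h.lt i hi) (h.start_lt i hi)
  have h2 := (hA.feasible (addBlock B D N' a b ℓ hD ha1 han hb1 hbn hℓ)).prec j hj' i
    (by simp only [addBlock, hj, if_false]; exact hi)
  rw [addBlock_finish_old _ (h.lt i hi)] at h2
  unfold Inst.finish at h2 hfi
  rw [h1.1, h1.2] at h2
  linarith

end ready

/-- the online side of the state of the adversary inside a round -/
structure Phase (A : Inst n → Sched) (p : Par n) (θ : ℝ) (i : ℕ) (B : Inst n) (D : Finset ℕ)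
    (σ : ℝ) (F : Finset ℕ) (U : Finset (ℕ × ℕ)) : Prop where
  ready : Ready A B D σ
  th_le : θ ≤ σ
  lt_th : σ < θ + 1
  F_lt : ∀ j ∈ F, j < B.N
  F_start : ∀ j ∈ F, (A B).start j < σ
  F_start' : ∀ j ∈ F, θ ≤ (A B).start j
  F_len : ∀ j ∈ F, B.len j = 2
  U_sub : U ⊆ Finset.range n ×ˢ Finset.range n
  U_card : (i : ℝ) * ((n : ℝ) ^ 2 / (2 * p.T)) ≤ (U.card : ℝ)
  U_avoid : ∀ s, i ≤ s → s < p.Φ → ∀ Q : Rect, Q.x + Q.w ≤ n → Q.y + Q.h ≤ n → 1 ≤ Q.w →
    1 ≤ Q.h → (p.a s : ℝ) ≤ p.T * Q.w → (p.b s : ℝ) ≤ p.T * Q.h →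
    (∀ j ∈ F, Disjoint Q.cells ((A B).rect j).cells) →
    ((Q.cells ∩ U).card : ℝ) ≤ (i : ℝ) / (2 * p.Φ) * ((Q.w : ℝ) * Q.h)

lemma Phase.i_lt {A : Inst n → Sched} {p : Par n} {θ : ℝ} {i : ℕ} {B : Inst n} {D : Finset ℕ}
    {σ : ℝ} {F : Finset ℕ} {U : Finset (ℕ × ℕ)} (h : Phase A p θ i B D σ F U) :
    (i : ℝ) ≤ 2 * p.T ∧ i < p.Φ := by
  have h1 := h.U_card
  have h2 := Finset.card_le_card h.U_sub
  rw [Finset.card_product, Finset.card_range] at h2
  have h3 : (U.card : ℝ) ≤ (n : ℝ) ^ 2 := by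
    calc (U.card : ℝ) ≤ ((n * n : ℕ) : ℝ) := by exact_mod_cast h2
      _ = (n : ℝ) ^ 2 := by push_cast; ring
  have hn : (0 : ℝ) < (n : ℝ) ^ 2 := by
    have : (0 : ℝ) < n := by exact_mod_cast p.n_pos
    positivity
  have hT := p.T_pos
  have h4 : (i : ℝ) * ((n : ℝ) ^ 2 / (2 * p.T)) ≤ (n : ℝ) ^ 2 := h1.trans h3
  have h5 : (i : ℝ) ≤ 2 * p.T := by
    rw [← mul_div_assoc, div_le_iff₀ (by positivity)] at h4
    nlinarith
  refine ⟨h5, ?_⟩
  have := p.T_lt'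
  have h6 : (i : ℝ) < (p.Φ : ℝ) := by linarith
  exact_mod_cast h6

/-- modified running times -/
noncomputable def newLen (p : Par n) (i : ℕ) (S : Sched) (t : ℝ) (L R : Finset ℕ) (j : ℕ) : ℝ :=
  if j ∈ L then 2 else if j ∈ R then
    (t - S.start j) * (((S.rect j).w : ℝ) * (S.rect j).h) / ((p.a i : ℝ) * p.b i)
  else if t ≤ S.start j then 0 else p.lam

lemma newLen_nonneg (p : Par n) (i : ℕ) (S : Sched) (t : ℝ) (L R : Finset ℕ)
    (hR : ∀ j ∈ R, S.start j < t) (j : ℕ) : 0 ≤ newLen p i S t L R j := by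
  unfold newLen
  split_ifs with h1 h2 h3
  · norm_num
  · have := hR j h2
    have h4 : 0 ≤ t - S.start j := by linarith
    positivity
  · exact le_rfl
  · exact p.lam_pos.le

end Pool.Agent.Helper472.Mesh
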