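import Pool.Agent.Helper472.Mesh.Final

open Classical

namespace Pool.Agent.Helper472.Mesh

variable {n : ℕ}

/-- the lower bound in terms of `L = log (n ^ 2)`, once `n` is large -/
theorem bound_of_large (n : ℕ) (hn : 1 ≤ n) (L : ℝ) (hL : L = Real.log ((n : ℝ) ^ 2))
    (h1 : 1 ≤ Real.log L) (h2 : 2 ≤ L) (h3 : 48 * Real.log L ≤ L)
    {A : Inst n → Sched} (hA : Online A) {ρ : ℝ} (hρ : Competitive A ρ) :
    1 / 100000 * (L / Real.log L) ^ 2 ≤ ρ := by
  have hL0 : 0 < L := by linarith
  set LL := Real.log L with hLL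
  have hLL0 : 0 < LL := by linarith
  have hn0 : (0 : ℝ) < n := by exact_mod_cast hn
  set x : ℝ := L / (24 * LL) with hx
  have hx2 : 2 ≤ x := by
    rw [hx, le_div_iff₀ (by positivity)]
    linarith
  set h : ℕ := ⌊x⌋₊ with hh
  have hh1 : (h : ℝ) ≤ x := Nat.floor_le (by linarith)
  have hh2 : x < h + 1 := Nat.lt_floor_add_one x
  have hh3 : x / 2 ≤ h := by linarith
  have hh4 : 2 ≤ h := Nat.le_floor (by exact_mod_cast hx2)
  have hh5 : (2 : ℝ) ≤ h := by exact_mod_cast hh4
  have hxL : x ≤ L / 24 := by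
    rw [hx, div_le_div_iff₀ (by positivity) (by norm_num)]
    nlinarith
  have hhL : (h : ℝ) ≤ L := by linarith
  set T : ℝ := (h : ℝ) ^ 2 / 4 with hT
  have hT1 : 1 ≤ T := by
    rw [hT]
    nlinarith
  have hT0 : 0 < T := by linarith
  set k : ℕ := ⌊L ^ 12⌋₊ with hk
  have hlog4 : Real.log ((n : ℝ) ^ 4) = 2 * L := by
    rw [hL]
    have : (n : ℝ) ^ 4 = ((n : ℝ) ^ 2) ^ 2 := by ring
    rw [this, Real.log_pow]
    norm_num
  set M : ℝ := 8 * ((h : ℝ) * h) * T ^ 2 * (1 + 2 * L) with hM
  set ν : ℝ := 1 / (100 * T ^ 3) with hν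
  have hν0 : 0 < ν := by positivity
  have hkL : L ^ 12 < k + 1 := Nat.lt_floor_add_one _
  have hkL' : (k : ℝ) ≤ L ^ 12 := Nat.floor_le (by positivity)
  have hk1 : L ^ 11 ≤ k := by
    have e1 : L ^ 12 = L ^ 11 * L := by ring
    have e2 : (1 : ℝ) ≤ L ^ 11 := one_le_pow₀ (by linarith)
    nlinarith
  have hkpos : 1 ≤ k := by
    have e2 : (1 : ℝ) ≤ L ^ 11 := one_le_pow₀ (by linarith)
    have : (1 : ℝ) ≤ k := by linarith
    exact_mod_cast this
  have hkh : k ^ h ≤ n := by
    have e1 : ((k : ℝ)) ^ h ≤ (L ^ 12) ^ h := by gcongr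
    have e2 : (L ^ 12) ^ h = Real.exp (LL * (12 * h)) := by
      rw [← pow_mul]
      have : L = Real.exp LL := by rw [hLL, Real.exp_log hL0]
      rw [this, ← Real.exp_nat_mul]
      congr 1
      push_cast
      ring
    have e3 : LL * (12 * h) ≤ Real.log n := by
      have e4 : Real.log ((n : ℝ) ^ 2) = 2 * Real.log n := by
        rw [Real.log_pow]
        norm_num
      have e5 : LL * x = L / 24 := by
        rw [hx]
        field_simp
      have e6 : LL * h ≤ LL * x := by gcongr
      have e7 : L = 2 * Real.log n := by rw [hL, e4]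
      nlinarith
    have e4 : ((k : ℝ)) ^ h ≤ n := by
      calc ((k : ℝ)) ^ h ≤ Real.exp (LL * (12 * h)) := by rw [← e2]; exact e1
        _ ≤ Real.exp (Real.log n) := Real.exp_le_exp.2 e3
        _ = n := Real.exp_log hn0
    exact_mod_cast e4
  have hMgt : 1 + Real.log ((n : ℝ) ^ 4) < M := by
    rw [hlog4, hM]
    have e1 : (4 : ℝ) ≤ (h : ℝ) * h := by nlinarith
    have e2 : (1 : ℝ) ≤ T ^ 2 := one_le_pow₀ hT1
    have e3 : (32 : ℝ) ≤ 8 * ((h : ℝ) * h) * T ^ 2 := by nlinarith
    nlinarith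
  have hkge : 2 * ((h : ℝ) * h) * M * T ≤ k := by
    have e1 : 2 * ((h : ℝ) * h) * M * T = 1 / 4 * (h : ℝ) ^ 10 * (1 + 2 * L) := by
      rw [hM, hT]
      ring
    rw [e1]
    have e2 : (h : ℝ) ^ 10 ≤ L ^ 10 := by gcongr
    have e3 : 1 + 2 * L ≤ 3 * L := by linarith
    calc 1 / 4 * (h : ℝ) ^ 10 * (1 + 2 * L) ≤ 1 / 4 * L ^ 10 * (3 * L) := by gcongr
      _ = 3 / 4 * L ^ 11 := by ring
      _ ≤ L ^ 11 := by
          have : 0 < L ^ 11 := by positivity
          linarith
      _ ≤ k := hk1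
  let p : Par n :=
    { h := h, k := k, T := T, M := M, lam := ν, eps := ν
      n_pos := hn, k_pos := hkpos, k_pow := hkh, T_ge := hT1
      T_lt := by
        rw [hT]
        nlinarith
      M_gt := hMgt, k_ge := hkge, lam_pos := hν0, eps_pos := hν0
      small := by
        rw [hν]
        have e1 : 2 * T * (4 * (1 / (100 * T ^ 3)) + 4 * (1 / (100 * T ^ 3)) * T +
            1 / (100 * T ^ 3)) + 5 * (1 / (100 * T ^ 3)) =
            (10 * T + 8 * T ^ 2 + 5) / (100 * T ^ 3) := by
          field_simp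
          ring
        rw [e1, div_le_div_iff₀ (by positivity) hT0]
        nlinarith [pow_pos hT0 3, pow_pos hT0 2] }
  have hb := par_bound hA hρ p (by
    rw [hlog4]
    have : (p.Φ : ℝ) = (h : ℝ) * h := by
      unfold Par.Φ
      push_cast
      rfl
    rw [this])
  refine le_trans ?_ hb
  change 1 / 100000 * (L / LL) ^ 2 ≤ T / 10
  rw [hT]
  have e1 : L / LL = 24 * x := by
    rw [hx]
    field_simp
  rw [e1]
  nlinarith

lemma eventually_large : ∀ᶠ n : ℕ in Filter.atTop, 1 ≤ n ∧
    1 ≤ Real.log (Real.log ((n : ℝ) ^ 2)) ∧ 2 ≤ Real.log ((n : ℝ) ^ 2) ∧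
    48 * Real.log (Real.log ((n : ℝ) ^ 2)) ≤ Real.log ((n : ℝ) ^ 2) := by
  have hL : Filter.Tendsto (fun n : ℕ => Real.log ((n : ℝ) ^ 2)) Filter.atTop Filter.atTop := by
    apply Real.tendsto_log_atTop.comp
    exact (Filter.tendsto_pow_atTop (by norm_num)).comp tendsto_natCast_atTop_atTop
  have hLL : Filter.Tendsto (fun n : ℕ => Real.log (Real.log ((n : ℝ) ^ 2)))
      Filter.atTop Filter.atTop := Real.tendsto_log_atTop.comp hL
  have h1 : ∀ᶠ x : ℝ in Filter.atTop, 48 * Real.log x ≤ x := by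
    have := Real.isLittleO_log_id_atTop.bound (show (0 : ℝ) < 1 / 48 by norm_num)
    filter_upwards [this, Filter.eventually_ge_atTop 1] with x hx hx1
    simp only [id, Real.norm_eq_abs] at hx
    rw [abs_of_nonneg (Real.log_nonneg hx1), abs_of_nonneg (by linarith)] at hx
    linarith
  filter_upwards [Filter.eventually_ge_atTop 1, hLL.eventually_ge_atTop 1,
    hL.eventually_ge_atTop 2, hL.eventually h1] with n a1 a2 a3 a4
  exact ⟨a1, a2, a3, a4⟩

section seq

lemma seq_fwd {I I' : Inst n} {t : ℝ} (h : SameInfo I I' (seqSched I) t) {j : ℕ}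
    (hj : j < I.N) (hs : (seqSched I).start j < t) :
    j < I'.N ∧ (∀ i ∈ Finset.range j, I'.len i = I.len i) ∧ I'.a j = I.a j ∧ I'.b j = I.b j ∧
      j ∈ I.known (I.done (seqSched I) t) := by
  have hdone : ∀ i < j, i ∈ I.done (seqSched I) t := by
    intro i hi
    simp only [Inst.done, Finset.mem_filter, Finset.mem_range]
    refine ⟨hi.trans hj, ?_⟩
    rw [seq_finish I (hi.trans hj)]
    exact lt_of_le_of_lt (sum_len_mono I hi hj.le) hs
  have hkn : j ∈ I.known (I.done (seqSched I) t) := by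
    simp only [Inst.known, Finset.mem_filter, Finset.mem_range]
    exact ⟨hj, fun i hi => hdone i (I.pred_lt j hj i hi)⟩
  have hkn' := hkn
  rw [← h.known_eq] at hkn'
  simp only [Inst.known, Finset.mem_filter, Finset.mem_range] at hkn'
  exact ⟨hkn'.1, fun i hi => h.len_eq i (hdone i (Finset.mem_range.1 hi)), (h.dims j hkn).1,
    (h.dims j hkn).2.1, hkn⟩

lemma seq_bwd {I I' : Inst n} {t : ℝ} (h : SameInfo I I' (seqSched I) t) (j : ℕ) :
    j < I'.N → (seqSched I').start j < t → j < I.N ∧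
      (∀ i ∈ Finset.range j, I'.len i = I.len i) := by
  induction j using Nat.strong_induction_on with
  | _ j ih =>
    intro hj hs
    have hdone : ∀ i < j, i ∈ I.done (seqSched I) t := by
      intro i hi
      have hiN' := hi.trans hj
      have hsi : (seqSched I').start i < t :=
        lt_of_le_of_lt (sum_len_mono I' hi.le hj.le) hs
      obtain ⟨hiN, hlen⟩ := ih i hi hiN' hsi
      have hst : (seqSched I).start i = (seqSched I').start i :=
        Finset.sum_congr rfl (fun l hl => (hlen l hl).symm)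
      obtain ⟨_, _, ha, hb, hkn⟩ := seq_fwd h hiN (by rw [hst]; exact hsi)
      by_contra hnd
      have h1 := h.undone i hkn hnd
      have h2 : I'.finish (seqSched I) i = ∑ l ∈ Finset.range (i + 1), I'.len l := by
        rw [← seq_finish I' hiN']
        unfold Inst.finish
        rw [hst]
        simp only [seqSched, ha, hb]
      rw [h2] at h1
      have h3 : ∑ l ∈ Finset.range (i + 1), I'.len l ≤ ∑ l ∈ Finset.range j, I'.len l :=
        sum_len_mono I' hi hj.le
      have h4 : (seqSched I').start j = ∑ l ∈ Finset.range j, I'.len l := rfl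
      linarith
    have hkn : j ∈ I'.known (I.done (seqSched I) t) := by
      simp only [Inst.known, Finset.mem_filter, Finset.mem_range]
      exact ⟨hj, fun i hi => hdone i (I'.pred_lt j hj i hi)⟩
    rw [h.known_eq] at hkn
    simp only [Inst.known, Finset.mem_filter, Finset.mem_range] at hkn
    exact ⟨hkn.1, fun i hi => h.len_eq i (hdone i (Finset.mem_range.1 hi))⟩

/-- running the jobs one after the other is a deterministic online algorithm -/
theorem seq_online : Online (fun I : Inst n => seqSched I) := by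
  refine ⟨seq_feasible, ?_⟩
  intro I I' t h j
  have key : j < I.N → (seqSched I).start j < t →
      (seqSched I').start j = (seqSched I).start j ∧
        (seqSched I').rect j = (seqSched I).rect j := by
    intro hj hs
    obtain ⟨_, hlen, ha, hb, _⟩ := seq_fwd h hj hs
    refine ⟨Finset.sum_congr rfl hlen, ?_⟩
    simp [seqSched, ha, hb]
  refine ⟨⟨?_, ?_⟩, key⟩
  · rintro ⟨hj, hs⟩
    refine ⟨(seq_fwd h hj hs).1, ?_⟩
    rw [(key hj hs).1]
    exact hs
  · rintro ⟨hj, hs⟩
    obtain ⟨hjN, hlen⟩ := seq_bwd h j hj hs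
    refine ⟨hjN, ?_⟩
    have : (seqSched I).start j = (seqSched I').start j :=
      Finset.sum_congr rfl (fun l hl => (hlen l hl).symm)
    rw [this]
    exact hs

/-- it is `n ^ 2`-competitive -/
theorem seq_competitive : Competitive (fun I : Inst n => seqSched I) ((n : ℝ) ^ 2) := by
  intro I
  refine (seq_makespan I).trans ?_
  have hn2 : (0 : ℝ) ≤ (n : ℝ) ^ 2 := by positivity
  have key : ∀ S : Sched, I.Feasible S →
      ∑ i ∈ Finset.range I.N, I.len i ≤ (n : ℝ) ^ 2 * I.makespan S := by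
    intro S hS
    have h1 := work_le (Finset.range I.N) (fun j => ((S.rect j).w : ℝ) * (S.rect j).h) S.start
      (I.finish S) 0 (I.makespan S) ((n : ℝ) ^ 2) (fun j _ => by positivity)
      (fun j hj => hS.start_nonneg j (Finset.mem_range.1 hj))
      (fun j hj => I.start_le_finish S (Finset.mem_range.1 hj))
      (fun j hj => I.le_makespan S (Finset.mem_range.1 hj))
      (Inst.makespan_nonneg hS) hn2
      (fun t _ _ => run_card_le hS _
        (fun j hj => Finset.mem_range.1 (Finset.mem_filter.1 hj).1) t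
        (fun j hj => (Finset.mem_filter.1 hj).2.1.le) (fun j hj => (Finset.mem_filter.1 hj).2.2))
    rw [sub_zero] at h1
    refine le_trans ?_ h1
    apply Finset.sum_le_sum
    intro j hj
    have hj' := Finset.mem_range.1 hj
    have hw0 : (0 : ℝ) < (S.rect j).w := by exact_mod_cast hS.w_pos j hj'
    have hh0 : (0 : ℝ) < (S.rect j).h := by exact_mod_cast hS.h_pos j hj'
    have ha1 : (1 : ℝ) ≤ I.a j := by exact_mod_cast I.a_pos j hj'
    have hb1 : (1 : ℝ) ≤ I.b j := by exact_mod_cast I.b_pos j hj'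
    have hl := I.len_nonneg j hj'
    have e1 : ((S.rect j).w : ℝ) * (S.rect j).h * (I.finish S j - S.start j) =
        I.len j * ((I.a j : ℝ) * I.b j) := by
      unfold Inst.finish
      field_simp
      ring
    rw [e1]
    have e2 : (1 : ℝ) ≤ (I.a j : ℝ) * I.b j := by nlinarith
    nlinarith
  unfold Inst.opt
  rcases eq_or_lt_of_le hn2 with h0 | h0
  · rw [← h0, zero_mul]
    have h1 := key (seqSched I) (seq_feasible I)
    rw [← h0, zero_mul] at h1
    exact h1
  · rw [← div_le_iff₀' h0]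
    apply le_csInf
    · exact ⟨_, seqSched I, seq_feasible I, rfl⟩
    · rintro _ ⟨S, hS, rfl⟩
      rw [div_le_iff₀' h0]
      exact key S hS

end seq

/-- The main lower bound. -/
theorem main : ∃ c : ℝ, 0 < c ∧ ∀ᶠ n : ℕ in Filter.atTop,
    c * (Real.log ((n : ℝ) ^ 2) / Real.log (Real.log ((n : ℝ) ^ 2))) ^ 2 ≤ Rdet n := by
  refine ⟨1 / 100000, by norm_num, ?_⟩
  filter_upwards [eventually_large] with n hn
  obtain ⟨h1, h2, h3, h4⟩ := hn
  unfold Rdet
  apply le_csInf
  · exact ⟨_, _, seq_online, seq_competitive⟩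
  · rintro ρ ⟨A, hA, hρ⟩
    exact bound_of_large n h1 _ rfl h2 h3 h4 hA hρ

end Pool.Agent.Helper472.Mesh
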