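import Pool.Agent.Helper472.Mesh.Model

open Classical

namespace Pool.Agent.Helper472.Mesh

variable {n : ℕ}

lemma Inst.start_le_finish (I : Inst n) (S : Sched) {j : ℕ}
    (hj : j < I.N) : S.start j ≤ I.finish S j := by
  unfold Inst.finish
  have h1 : 0 ≤ I.len j * ((I.a j : ℝ) * (I.b j : ℝ)) /
    (((S.rect j).w : ℝ) * ((S.rect j).h : ℝ)) := by
    have := I.len_nonneg j hj
    positivity
  linarith

lemma Inst.Feasible.finish_nonneg {I : Inst n} {S : Sched} (hS : I.Feasible S) {j : ℕ}
    (hj : j < I.N) : 0 ≤ I.finish S j :=
  le_trans (hS.start_nonneg j hj) (I.start_le_finish S hj)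

lemma Inst.le_makespan (I : Inst n) (S : Sched) {j : ℕ} (hj : j < I.N) :
    I.finish S j ≤ I.makespan S := by
  unfold Inst.makespan
  exact le_ciSup (f := fun j : Fin I.N => I.finish S j)
    (Set.finite_range _).bddAbove (⟨j, hj⟩ : Fin I.N)

lemma Inst.makespan_le (I : Inst n) (S : Sched) {C : ℝ} (hC : 0 ≤ C)
    (h : ∀ j < I.N, I.finish S j ≤ C) : I.makespan S ≤ C := by
  unfold Inst.makespan
  exact Real.iSup_le (fun j => h j j.2) hC

lemma Inst.makespan_nonneg {I : Inst n} {S : Sched} (hS : I.Feasible S) : 0 ≤ I.makespan S := by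
  unfold Inst.makespan
  exact Real.iSup_nonneg (fun j => hS.finish_nonneg j.2)

lemma Inst.opt_le {I : Inst n} {S : Sched} (hS : I.Feasible S) : I.opt ≤ I.makespan S := by
  unfold Inst.opt
  apply csInf_le
  · refine ⟨0, ?_⟩
    rintro _ ⟨S', hS', rfl⟩
    exact Inst.makespan_nonneg hS'
  · exact ⟨S, hS, rfl⟩

/-- the sequential schedule -/
noncomputable def seqSched (I : Inst n) : Sched where
  start := fun j => ∑ i ∈ Finset.range j, I.len i
  rect := fun j => ⟨0, 0, I.a j, I.b j⟩

lemma seq_finish (I : Inst n) {j : ℕ} (hj : j < I.N) :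
    I.finish (seqSched I) j = ∑ i ∈ Finset.range (j + 1), I.len i := by
  unfold Inst.finish seqSched
  rw [Finset.sum_range_succ]
  have h1 : (0 : ℝ) < (I.a j : ℝ) := by
    have := I.a_pos j hj
    exact_mod_cast this
  have h2 : (0 : ℝ) < (I.b j : ℝ) := by
    have := I.b_pos j hj
    exact_mod_cast this
  simp only
  field_simp

lemma sum_len_mono (I : Inst n) {i j : ℕ} (hij : i ≤ j) (hj : j ≤ I.N) :
    ∑ l ∈ Finset.range i, I.len l ≤ ∑ l ∈ Finset.range j, I.len l := by
  apply Finset.sum_le_sum_of_subset_of_nonneg
  · exact Finset.range_subset_range.2 hij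
  · intro l hl _
    exact I.len_nonneg l (lt_of_lt_of_le (Finset.mem_range.1 hl) hj)

lemma seq_feasible (I : Inst n) : I.Feasible (seqSched I) where
  start_nonneg := by
    intro j hj
    change 0 ≤ ∑ i ∈ Finset.range j, I.len i
    apply Finset.sum_nonneg
    intro i hi
    exact I.len_nonneg i (lt_trans (Finset.mem_range.1 hi) hj)
  w_pos := fun j hj => I.a_pos j hj
  h_pos := fun j hj => I.b_pos j hj
  w_le := fun j hj => le_rfl
  h_le := fun j hj => le_rfl
  x_le := fun j hj => by simpa [seqSched] using I.a_le j hj
  y_le := fun j hj => by simpa [seqSched] using I.b_le j hj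
  prec := by
    intro j hj i hi
    have hij := I.pred_lt j hj i hi
    rw [seq_finish I (lt_trans hij hj)]
    exact sum_len_mono I hij hj.le
  excl := by
    intro i hi j hj hij t h1 h2 h3 h4
    exfalso
    rw [seq_finish I hi] at h2
    rw [seq_finish I hj] at h4
    rcases lt_or_gt_of_ne hij with h | h
    · have := sum_len_mono I (show i + 1 ≤ j from h) hj.le
      have h5 : ∑ l ∈ Finset.range j, I.len l ≤ t := h3
      linarith
    · have := sum_len_mono I (show j + 1 ≤ i from h) hi.le
      have h5 : ∑ l ∈ Finset.range i, I.len l ≤ t := h1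
      linarith

lemma seq_makespan (I : Inst n) : I.makespan (seqSched I) ≤ ∑ i ∈ Finset.range I.N, I.len i := by
  apply Inst.makespan_le
  · apply Finset.sum_nonneg
    intro i hi
    exact I.len_nonneg i (Finset.mem_range.1 hi)
  · intro j hj
    rw [seq_finish I hj]
    exact sum_len_mono I hj le_rfl

/-- change the length of one job -/
noncomputable def relen (I : Inst n) (j : ℕ) (L : ℝ) (hL : 0 ≤ L) : Inst n where
  N := I.N
  a := I.a
  b := I.b
  len := fun i => if i = j then L else I.len i
  pred := I.pred
  a_pos := I.a_pos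
  a_le := I.a_le
  b_pos := I.b_pos
  b_le := I.b_le
  len_nonneg := by
    intro i hi
    by_cases h : i = j
    · simp [h, hL]
    · simp [h, I.len_nonneg i hi]
  pred_lt := I.pred_lt

/-- a competitive online algorithm never shrinks a job of positive length by more than `ρ`. -/
lemma noshrink {A : Inst n → Sched} (hA : Online A) {ρ : ℝ} (hρ : Competitive A ρ)
    (I : Inst n) {j : ℕ} (hj : j < I.N) (hlen : 0 < I.len j) :
    (I.a j : ℝ) * I.b j ≤ ρ * ((((A I).rect j).w : ℝ) * ((A I).rect j).h) := by
  have hF := hA.feasible I
  have hw : (0 : ℝ) < (((A I).rect j).w : ℝ) := by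
    have := hF.w_pos j hj
    exact_mod_cast this
  have hh : (0 : ℝ) < (((A I).rect j).h : ℝ) := by
    have := hF.h_pos j hj
    exact_mod_cast this
  have ha : (0 : ℝ) < (I.a j : ℝ) := by
    have := I.a_pos j hj
    exact_mod_cast this
  have hb : (0 : ℝ) < (I.b j : ℝ) := by
    have := I.b_pos j hj
    exact_mod_cast this
  set wh : ℝ := (((A I).rect j).w : ℝ) * ((A I).rect j).h with hwh
  have hwh0 : 0 < wh := by positivity
  set ab : ℝ := (I.a j : ℝ) * I.b j with hab
  have hab0 : 0 < ab := by positivity
  have key : ∀ L : ℝ, I.len j ≤ L → L * ab / wh ≤ ρ * ((∑ i ∈ Finset.range I.N, I.len i) + L) ∨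
      ρ < 0 := by
    intro L hL
    have hL0 : 0 ≤ L := le_trans hlen.le hL
    set I' := relen I j L hL0 with hI'
    have hsame : SameInfo I I' (A I) (I.finish (A I) j) := by
      refine ⟨rfl, ?_, ?_, ?_⟩
      · intro i _
        exact ⟨rfl, rfl, rfl⟩
      · intro i hi
        have hij : i ≠ j := by
          rintro rfl
          simp [Inst.done] at hi
        simp [I', relen, hij]
      · intro i hi hid
        by_cases hij : i = j
        · subst hij
          unfold Inst.finish
          simp only [I', relen, if_true]
          have : I.len i * ab / wh ≤ L * ab / wh := by gcongr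
          simpa [hwh, hab] using this
        · have hiN : i < I.N := by
            simp only [Inst.known, Finset.mem_filter, Finset.mem_range] at hi
            exact hi.1
          have h1 : I'.finish (A I) i = I.finish (A I) i := by
            simp [Inst.finish, I', relen, hij]
          rw [h1]
          by_contra hcon
          push Not at hcon
          exact hid (by simp [Inst.done, hiN, hcon])
    have hst : (A I).start j < I.finish (A I) j := by
      unfold Inst.finish
      have : 0 < I.len j * ab / wh := by positivity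
      simpa [hwh, hab] using this
    have hag := (hA.nonanticipating I I' _ hsame j).2 hj hst
    have hj' : j < I'.N := hj
    have h1 : L * ab / wh ≤ I'.finish (A I') j := by
      unfold Inst.finish
      rw [hag.1, hag.2]
      have h0 := hF.start_nonneg j hj
      have : I'.len j = L := by simp [I', relen]
      rw [this]
      have h2 : (I'.a j : ℝ) = I.a j := rfl
      have h3 : (I'.b j : ℝ) = I.b j := rfl
      rw [h2, h3]
      change L * ab / wh ≤ (A I).start j + L * ab / wh
      linarith
    have h2 := I'.le_makespan (A I') hj'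
    have h3 := hρ I'
    have h4 := Inst.opt_le (seq_feasible I')
    have h5 := seq_makespan I'
    have h6 : ∑ i ∈ Finset.range I'.N, I'.len i ≤ (∑ i ∈ Finset.range I.N, I.len i) + L := by
      have hjm : j ∈ Finset.range I.N := Finset.mem_range.2 hj
      have e1 : ∑ i ∈ Finset.range I'.N, I'.len i =
          (∑ i ∈ (Finset.range I.N).erase j, I'.len i) + I'.len j := by
        change ∑ i ∈ Finset.range I.N, I'.len i = _
        rw [Finset.sum_erase_add _ _ hjm]
      have e2 : ∑ i ∈ (Finset.range I.N).erase j, I'.len i =
          ∑ i ∈ (Finset.range I.N).erase j, I.len i := by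
        apply Finset.sum_congr rfl
        intro i hi
        have : i ≠ j := (Finset.mem_erase.1 hi).1
        simp [I', relen, this]
      have e3 : ∑ i ∈ (Finset.range I.N).erase j, I.len i ≤ ∑ i ∈ Finset.range I.N, I.len i := by
        apply Finset.sum_le_sum_of_subset_of_nonneg (Finset.erase_subset _ _)
        intro i hi _
        exact I.len_nonneg i (Finset.mem_range.1 hi)
      have e4 : I'.len j = L := by simp [I', relen]
      rw [e1, e2, e4]
      linarith
    by_cases hneg : ρ < 0
    · right; exact hneg
    · left
      push Not at hneg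
      calc L * ab / wh ≤ I'.makespan (A I') := le_trans h1 h2
        _ ≤ ρ * I'.opt := h3
        _ ≤ ρ * ((∑ i ∈ Finset.range I.N, I.len i) + L) := by
            apply mul_le_mul_of_nonneg_left _ hneg
            linarith
  have hρ0 : 0 ≤ ρ := by
    by_contra hneg
    push Not at hneg
    have h1 := hρ I
    have h2 : (0 : ℝ) < I.finish (A I) j := by
      have h0 := hF.start_nonneg j hj
      unfold Inst.finish
      have : 0 < I.len j * ab / wh := by positivity
      change 0 < (A I).start j + I.len j * ab / wh
      linarith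
    have h3 := I.le_makespan (A I) hj
    have h4 : 0 ≤ I.opt := by
      unfold Inst.opt
      apply Real.sInf_nonneg
      rintro _ ⟨S', hS', rfl⟩
      exact Inst.makespan_nonneg hS'
    nlinarith
  by_contra hcon
  push Not at hcon
  set C := ∑ i ∈ Finset.range I.N, I.len i with hC
  have hC0 : 0 ≤ C := by
    apply Finset.sum_nonneg
    intro i hi
    exact I.len_nonneg i (Finset.mem_range.1 hi)
  have hd : 0 < ab / wh - ρ := by
    rw [sub_pos, lt_div_iff₀ hwh0]
    exact hcon
  set L := max (I.len j) (ρ * C / (ab / wh - ρ) + 1) with hL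
  rcases key L (le_max_left _ _) with h | h
  · have h1 : ρ * C / (ab / wh - ρ) + 1 ≤ L := le_max_right _ _
    have h2 : ρ * C < L * (ab / wh - ρ) := by
      have h3 : ρ * C / (ab / wh - ρ) < L := by linarith
      rwa [div_lt_iff₀ hd] at h3
    have h4 : L * ab / wh = L * (ab / wh) := by ring
    rw [h4] at h
    nlinarith
  · linarith

end Pool.Agent.Helper472.Mesh
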