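import Pool.Agent.Helper472.Mesh.Step

open Classical

namespace Pool.Agent.Helper472.Mesh

variable {n : ℕ}

variable {A : Inst n → Sched} {ρ : ℝ} {p : Par n} {θ : ℝ} {i : ℕ} {B : Inst n} {D : Finset ℕ}
    {σ : ℝ} {F : Finset ℕ} {U : Finset (ℕ × ℕ)}

/-- facts on the jobs of a block -/
lemma block_facts (hA : Online A) (hρ : Competitive A ρ) (hρT : ρ ≤ p.T) (hr : Ready A B D σ)
    (hi : i < p.Φ) (N' : ℕ) (I' : Inst n) (S : Sched)
    (hI' : I' = dflt p i hi B D hr.lt N') (hS : S = A I') {j : ℕ}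
    (hj : j ∈ Finset.Ico B.N (B.N + N')) :
    j < I'.N ∧ ¬ j < B.N ∧ I'.a j = p.a i ∧ I'.b j = p.b i ∧ I'.len j = p.lam ∧ σ ≤ S.start j ∧
    (S.rect j).w ≤ p.a i ∧ (S.rect j).h ≤ p.b i ∧
    (p.a i : ℝ) ≤ p.T * (S.rect j).w ∧ (p.b i : ℝ) ≤ p.T * (S.rect j).h ∧
    (p.a i : ℝ) * p.b i ≤ p.T * (((S.rect j).w : ℝ) * (S.rect j).h) ∧
    ((S.rect j).w : ℝ) * (S.rect j).h * (I'.finish S j - S.start j) =
      p.lam * ((p.a i : ℝ) * p.b i) := by
  have hjI : j < I'.N := by
    rw [hI']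
    exact (Finset.mem_Ico.1 hj).2
  have hjB : ¬ j < B.N := by
    have := (Finset.mem_Ico.1 hj).1
    omega
  have ha : I'.a j = p.a i := by simp [hI', dflt, addBlock, hjB]
  have hb : I'.b j = p.b i := by simp [hI', dflt, addBlock, hjB]
  have hl : I'.len j = p.lam := by simp [hI', dflt, addBlock, hjB]
  have hF := hA.feasible I'
  rw [← hS] at hF
  have hst : σ ≤ S.start j := by
    rw [hS, hI']
    exact hr.new_start hA hjB (Finset.mem_Ico.1 hj).2
  have hw : (S.rect j).w ≤ p.a i := ha ▸ hF.w_le j hjI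
  have hh : (S.rect j).h ≤ p.b i := hb ▸ hF.h_le j hjI
  have hns := noshrink hA hρ I' hjI (by rw [hl]; exact p.lam_pos)
  rw [ha, hb, ← hS] at hns
  obtain ⟨h1, h2, h3⟩ := shrink_bounds (p.a_pos i) (p.b_pos i) hw hh p.T_pos hns hρT
  refine ⟨hjI, hjB, ha, hb, hl, hst, hw, hh, h1, h2, h3, ?_⟩
  unfold Inst.finish
  rw [ha, hb, hl]
  have hw0 : (0 : ℝ) < (S.rect j).w := by exact_mod_cast hF.w_pos j hjI
  have hh0 : (0 : ℝ) < (S.rect j).h := by exact_mod_cast hF.h_pos j hjI
  field_simp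
  ring

theorem case1 (hA : Online A) (hρ : Competitive A ρ) (hρT : ρ ≤ p.T)
    (hph : Phase A p θ i B D σ F U) (hi : i < p.Φ)
    {X : Finset ℕ} {Lf : ℕ → Finset ℕ} {Sf : Sched} {K : ℝ} {cnt : ℕ → ℝ}
    (hoff : OffSt p B D X Lf Sf K cnt) (N' : ℕ) (I' : Inst n) (S : Sched)
    (hI' : I' = dflt p i hi B D hph.ready.lt N') (hS : S = A I') (t : ℝ) (ht1 : σ < t)
    (ht2 : t < θ + 1)
    (hcov : (n : ℝ) ^ 2 / p.T ≤
      ∑ j ∈ runs I' S B.N (B.N + N') t, ((S.rect j).w : ℝ) * (S.rect j).h)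
    (hbefore : ∀ t', σ < t' → t' ≤ t - p.eps →
      ∑ j ∈ runs I' S B.N (B.N + N') t', ((S.rect j).w : ℝ) * (S.rect j).h ≤
        (n : ℝ) ^ 2 / p.T) :
    ∃ (B' : Inst n) (D' F' : Finset ℕ) (U' : Finset (ℕ × ℕ)) (X' : Finset ℕ)
      (Lf' : ℕ → Finset ℕ) (S' : Sched) (K' : ℝ),
      Phase A p θ (i + 1) B' D' t F' U' ∧
      OffSt p B' D' X' Lf' S' K' (fun s => cnt s + if s = i then p.Y i else 0) ∧
      K' ≤ K + 4 * (t - σ) / p.T + p.δ := by
  have hF := hA.feasible I'
  rw [← hS] at hF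
  have hN : I'.N = B.N + N' := by rw [hI']; rfl
  set bl := Finset.Ico B.N (B.N + N') with hbl
  set R := runs I' S B.N (B.N + N') t with hR
  have hRbl : ∀ j ∈ R, j ∈ bl := fun j hj => (Finset.mem_filter.1 hj).1
  have hRst : ∀ j ∈ R, S.start j < t := fun j hj => (Finset.mem_filter.1 hj).2.1
  have hRfin : ∀ j ∈ R, t < I'.finish S j := fun j hj => (Finset.mem_filter.1 hj).2.2
  have hfacts := fun j (hj : j ∈ bl) =>
    block_facts hA hρ hρT hph.ready hi N' I' S hI' hS hj
  have hT := p.T_pos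
  have ha0 := p.a_pos' i
  have hb0 := p.b_pos' i
  have hn0 : (0 : ℝ) < n := by exact_mod_cast p.n_pos
  have hn2 : (0 : ℝ) < (n : ℝ) ^ 2 := by positivity
  have hM := p.M_pos
  have hlog := p.log_nonneg
  have hΦ0 : (0 : ℝ) < p.Φ := by exact_mod_cast p.Φ_pos
  have hk0 : (0 : ℝ) < p.k := by exact_mod_cast p.k_pos
  have hlam := p.lam_pos
  have hRN : ∀ j ∈ R, j < I'.N := fun j hj => (hfacts j (hRbl j hj)).1
  -- the covered area
  set C := R.biUnion (fun j => (S.rect j).cells) with hC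
  have hCcard : (C.card : ℝ) = ∑ j ∈ R, ((S.rect j).w : ℝ) * (S.rect j).h :=
    run_card hF R hRN t (fun j hj => (hRst j hj).le) hRfin
  have hCle : ∑ j ∈ R, ((S.rect j).w : ℝ) * (S.rect j).h ≤ (n : ℝ) ^ 2 :=
    run_card_le hF R hRN t (fun j hj => (hRst j hj).le) hRfin
  have hRcard : (R.card : ℝ) * ((p.a i : ℝ) * p.b i) ≤ p.T * (n : ℝ) ^ 2 := by
    calc (R.card : ℝ) * ((p.a i : ℝ) * p.b i) = ∑ j ∈ R, (p.a i : ℝ) * p.b i := by
          rw [Finset.sum_const, nsmul_eq_mul]
      _ ≤ ∑ j ∈ R, p.T * (((S.rect j).w : ℝ) * (S.rect j).h) := by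
          apply Finset.sum_le_sum
          intro j hj
          exact (hfacts j (hRbl j hj)).2.2.2.2.2.2.2.2.2.2.1
      _ = p.T * ∑ j ∈ R, ((S.rect j).w : ℝ) * (S.rect j).h := by rw [Finset.mul_sum]
      _ ≤ p.T * (n : ℝ) ^ 2 := by gcongr
  have hRpos : (0 : ℝ) < R.card := by
    have h1 : 0 < (n : ℝ) ^ 2 / p.T := by positivity
    have h2 : R.Nonempty := by
      by_contra hne
      rw [Finset.not_nonempty_iff_eq_empty] at hne
      rw [hne, Finset.sum_empty] at hcov
      linarith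
    exact_mod_cast Finset.card_pos.2 h2
  obtain ⟨L, hLR, hLcard, hLav⟩ := exists_left p R S
  have hLY : (L.card : ℝ) ≤ p.Y i := by
    refine hLcard.trans ?_
    unfold Par.Y
    have : (R.card : ℝ) ≤ p.T * (n : ℝ) ^ 2 / ((p.a i : ℝ) * p.b i) := by
      rw [le_div_iff₀ (by positivity)]
      exact hRcard
    gcongr
  have hLlt : L.card < R.card := by
    have h1 : (L.card : ℝ) < R.card := by
      refine lt_of_le_of_lt hLcard ?_
      rw [div_mul_eq_mul_div, div_lt_iff₀ hM]
      exact mul_lt_mul_of_pos_left p.M_gt hRpos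
    exact_mod_cast h1
  set B' := modi p i hi B D hph.ready.lt N' S t L R hRst with hB'
  have hN' : B'.N = B.N + N' := rfl
  have hsame : SameInfo I' B' S t :=
    same_mod hA hi hph.ready.lt hph.ready N' t (by have := hph.th_le; linarith) L R I' S hI' hS
      hR hLR hRst
  have hag : ∀ j, j < B.N + N' → S.start j < t →
      (A B').start j = S.start j ∧ (A B').rect j = S.rect j := by
    intro j hj hjs
    rw [hS] at hjs hsame
    have := (hA.nonanticipating I' B' t hsame j).2 (by rw [hN]; exact hj) hjs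
    rw [hS]
    exact this
  have hagB : ∀ j, j < B.N → (A B).start j < σ →
      S.start j = (A B).start j ∧ S.rect j = (A B).rect j := by
    intro j hj hjs
    rw [hS, hI']
    exact hph.ready.agree hA hj hjs
  have hagBB : ∀ j, j < B.N → (A B).start j < σ →
      (A B').start j = (A B).start j ∧ (A B').rect j = (A B).rect j := by
    intro j hj hjs
    obtain ⟨h1, h2⟩ := hagB j hj hjs
    obtain ⟨h3, h4⟩ := hag j (by omega) (by rw [h1]; linarith)
    exact ⟨h3.trans h1, h4.trans h2⟩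
  set D' := R \ L with hD'
  have hD'bl : ∀ j ∈ D', j ∈ bl := fun j hj => hRbl j (Finset.mem_sdiff.1 hj).1
  have hblN : ∀ j ∈ bl, j < B.N + N' := fun j hj => (Finset.mem_Ico.1 hj).2
  have hD'fin : ∀ j ∈ D', B'.finish (A B') j = t := by
    intro j hj
    obtain ⟨hjR, hjL⟩ := Finset.mem_sdiff.1 hj
    have hjbl := hRbl j hjR
    have hfj := hfacts j hjbl
    obtain ⟨h1, h2⟩ := hag j (hblN j hjbl) (hRst j hjR)
    have hjB : ¬ j < B.N := hfj.2.1
    have hfn : B'.finish (A B') j = (A B').start j + newLen p i S t L R j *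
        ((p.a i : ℝ) * p.b i) / ((((A B').rect j).w : ℝ) * (((A B').rect j).h : ℝ)) :=
      addBlock_finish_new (A B') hjB
    rw [hfn, h1, h2]
    unfold newLen
    rw [if_neg hjL, if_pos hjR]
    have hw0 : (0 : ℝ) < (S.rect j).w := by exact_mod_cast hF.w_pos j hfj.1
    have hh0 : (0 : ℝ) < (S.rect j).h := by exact_mod_cast hF.h_pos j hfj.1
    field_simp
    ring
  have hD'ne : D'.Nonempty := by
    rw [← Finset.card_pos, hD', Finset.card_sdiff_of_subset hLR]
    omega
  have hready : Ready A B' D' t := by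
    refine ⟨?_, ?_, ?_, ?_⟩
    · intro j hj; exact hblN j (hD'bl j hj)
    · intro j hj
      have hjR := (Finset.mem_sdiff.1 hj).1
      rw [(hag j (hblN j (hD'bl j hj)) (hRst j hjR)).1]
      exact hRst j hjR
    · intro j hj; exact (hD'fin j hj).le
    · obtain ⟨j, hj⟩ := hD'ne
      exact ⟨j, hj, hD'fin j hj⟩
  have hLbl : ∀ j ∈ L, j ∈ bl := fun j hj => hRbl j (hLR hj)
  -- frozen jobs of this round avoid the running jobs
  have hFdis : ∀ j ∈ R, ∀ f ∈ F, Disjoint (S.rect j).cells ((A B).rect f).cells := by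
    intro j hj f hf
    obtain ⟨h1, h2⟩ := hagB f (hph.F_lt f hf) (hph.F_start f hf)
    rw [← h2]
    have hfB := hph.F_lt f hf
    have hfI : f < I'.N := by rw [hN]; omega
    have hjbl := hRbl j hj
    have hfj := hfacts j hjbl
    have hjf : j ≠ f := by
      rintro rfl
      exact hfj.2.1 hfB
    have hfs : S.start f ≤ t := by
      rw [h1]
      have := hph.F_start f hf
      linarith
    refine hF.excl j hfj.1 f hfI hjf t (hRst j hj).le (hRfin j hj) hfs ?_
    -- the frozen job still runs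
    have hw0 : (0 : ℝ) < (S.rect f).w := by exact_mod_cast hF.w_pos f hfI
    have hh0 : (0 : ℝ) < (S.rect f).h := by exact_mod_cast hF.h_pos f hfI
    have hw1 : ((S.rect f).w : ℝ) ≤ I'.a f := by exact_mod_cast hF.w_le f hfI
    have hh1 : ((S.rect f).h : ℝ) ≤ I'.b f := by exact_mod_cast hF.h_le f hfI
    have hlen : I'.len f = 2 := by
      rw [← hph.F_len f hf]
      simp [hI', dflt, addBlock, hfB]
    unfold Inst.finish
    rw [hlen]
    have h6 : (2 : ℝ) ≤ 2 * ((I'.a f : ℝ) * I'.b f) /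
        (((S.rect f).w : ℝ) * (S.rect f).h) := by
      rw [le_div_iff₀ (by positivity)]
      have : ((S.rect f).w : ℝ) * (S.rect f).h ≤ (I'.a f : ℝ) * I'.b f := by gcongr
      linarith
    have h7 := hph.F_start' f hf
    rw [h1]
    linarith
  -- new covered set
  have hiΦ : (i : ℝ) / (2 * p.Φ) ≤ 1 / 2 := by
    have h1 : (i : ℝ) ≤ p.Φ := by exact_mod_cast hi.le
    rw [div_le_div_iff₀ (by positivity) (by norm_num)]
    linarith
  have hCU : ((C ∩ U).card : ℝ) ≤ 1 / 2 * (C.card : ℝ) := by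
    have h1 : C ∩ U ⊆ R.biUnion (fun j => (S.rect j).cells ∩ U) := by
      intro x hx
      obtain ⟨hxC, hxU⟩ := Finset.mem_inter.1 hx
      obtain ⟨j, hj, hxj⟩ := Finset.mem_biUnion.1 hxC
      exact Finset.mem_biUnion.2 ⟨j, hj, Finset.mem_inter.2 ⟨hxj, hxU⟩⟩
    have h2 : ((C ∩ U).card : ℝ) ≤ ∑ j ∈ R, (((S.rect j).cells ∩ U).card : ℝ) := by
      have := (Finset.card_le_card h1).trans Finset.card_biUnion_le
      exact_mod_cast this
    refine h2.trans ?_
    rw [hCcard, Finset.mul_sum]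
    apply Finset.sum_le_sum
    intro j hj
    have hfj := hfacts j (hRbl j hj)
    have h3 := hph.U_avoid i le_rfl hi (S.rect j) (hF.x_le j hfj.1) (hF.y_le j hfj.1)
      (hF.w_pos j hfj.1) (hF.h_pos j hfj.1) hfj.2.2.2.2.2.2.2.2.1 hfj.2.2.2.2.2.2.2.2.2.1
      (hFdis j hj)
    refine h3.trans ?_
    gcongr
  have hphase : Phase A p θ (i + 1) B' D' t (F ∪ L) (U ∪ C) := by
    refine ⟨hready, ?_, ht2, ?_, ?_, ?_, ?_, ?_, ?_, ?_⟩
    · have := hph.th_le
      linarith
    · intro j hj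
      rcases Finset.mem_union.1 hj with hj | hj
      · have := hph.F_lt j hj
        rw [hN']; omega
      · exact hblN j (hLbl j hj)
    · intro j hj
      rcases Finset.mem_union.1 hj with hj | hj
      · rw [(hagBB j (hph.F_lt j hj) (hph.F_start j hj)).1]
        have := hph.F_start j hj
        linarith
      · rw [(hag j (hblN j (hLbl j hj)) (hRst j (hLR hj))).1]
        exact hRst j (hLR hj)
    · intro j hj
      rcases Finset.mem_union.1 hj with hj | hj
      · rw [(hagBB j (hph.F_lt j hj) (hph.F_start j hj)).1]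
        exact hph.F_start' j hj
      · rw [(hag j (hblN j (hLbl j hj)) (hRst j (hLR hj))).1]
        have h1 := (hfacts j (hLbl j hj)).2.2.2.2.2.1
        have h2 := hph.th_le
        linarith
    · intro j hj
      rcases Finset.mem_union.1 hj with hj | hj
      · rw [← hph.F_len j hj]
        have := hph.F_lt j hj
        simp [B', modi, addBlock, this]
      · have := (hfacts j (hLbl j hj)).2.1
        simp [B', modi, addBlock, this, newLen, hj]
    · apply Finset.union_subset hph.U_sub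
      intro c hc
      obtain ⟨j, hj, hc⟩ := Finset.mem_biUnion.1 hc
      exact cells_sub (hF.x_le j (hRN j hj)) (hF.y_le j (hRN j hj)) hc
    · have h1 := hph.U_card
      have h2 : (U ∪ C).card + (U ∩ C).card = U.card + C.card :=
        Finset.card_union_add_card_inter U C
      have h3 : ((U ∪ C).card : ℝ) + ((U ∩ C).card : ℝ) = U.card + C.card := by
        exact_mod_cast h2
      rw [Finset.inter_comm] at h3
      have h4 : (n : ℝ) ^ 2 / p.T ≤ C.card := by rw [hCcard]; exact hcov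
      have h5 : (n : ℝ) ^ 2 / (2 * p.T) = 1 / 2 * ((n : ℝ) ^ 2 / p.T) := by
        field_simp
      push_cast
      rw [h5] at h1 ⊢
      nlinarith
    · intro s hs hsΦ Q hQx hQy hQw hQh hQa hQb hQdis
      have h1 : ∀ f ∈ F, Disjoint Q.cells ((A B).rect f).cells := by
        intro f hf
        have := hQdis f (Finset.mem_union_left _ hf)
        rwa [(hagBB f (hph.F_lt f hf) (hph.F_start f hf)).2] at this
      have h2 := hph.U_avoid s (by omega) hsΦ Q hQx hQy hQw hQh hQa hQb h1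
      have h3 : ∀ j ∈ L, Disjoint Q.cells (S.rect j).cells := by
        intro j hj
        have := hQdis j (Finset.mem_union_right _ hj)
        rwa [(hag j (hblN j (hLbl j hj)) (hRst j (hLR hj))).2] at this
      have h4 := hLav Q hQx hQy hQw hQh h3
      have h5 : ∀ j ∈ R, ((Q.cells ∩ (S.rect j).cells).card : ℝ) ≤
          p.T / p.k * ((Q.w : ℝ) * Q.h) := by
        intro j hj
        have hfj := hfacts j (hRbl j hj)
        exact inter_small p (show i < s by omega) Q (S.rect j) hfj.2.2.2.2.2.2.1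
          hfj.2.2.2.2.2.2.2.1 hQa hQb
      have h6 := inter_biUnion_card h5
      have h7 : ((Q.cells ∩ C).card : ℝ) ≤ p.M * (p.T / p.k * ((Q.w : ℝ) * Q.h)) := by
        refine h6.trans ?_
        apply mul_le_mul_of_nonneg_right h4.le
        positivity
      have h8 : p.M * (p.T / p.k * ((Q.w : ℝ) * Q.h)) ≤ 1 / (2 * p.Φ) * ((Q.w : ℝ) * Q.h) := by
        rw [← mul_assoc]
        apply mul_le_mul_of_nonneg_right _ (by positivity)
        rw [← mul_div_assoc, div_le_div_iff₀ hk0 (by positivity)]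
        have := p.k_ge'
        nlinarith
      have h9 : ((Q.cells ∩ (U ∪ C)).card : ℝ) ≤ ((Q.cells ∩ U).card : ℝ) +
          ((Q.cells ∩ C).card : ℝ) := by
        rw [Finset.inter_union_distrib_left]
        exact_mod_cast Finset.card_union_le _ _
      calc ((Q.cells ∩ (U ∪ C)).card : ℝ) ≤ ((Q.cells ∩ U).card : ℝ) +
            ((Q.cells ∩ C).card : ℝ) := h9
        _ ≤ (i : ℝ) / (2 * p.Φ) * ((Q.w : ℝ) * Q.h) + 1 / (2 * p.Φ) * ((Q.w : ℝ) * Q.h) := by
            linarith
        _ = ((i + 1 : ℕ) : ℝ) / (2 * p.Φ) * ((Q.w : ℝ) * Q.h) := by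
            push_cast
            ring
  -- the offline side
  set Gf := bl.filter (fun j => I'.finish S j ≤ t) with hGf
  set G := Gf ∪ (R \ L) with hG
  have hGfbl : ∀ j ∈ Gf, j ∈ bl := fun j hj => (Finset.mem_filter.1 hj).1
  have hGfR : ∀ j ∈ Gf, j ∉ R := by
    intro j hj hjR
    have h1 := (Finset.mem_filter.1 hj).2
    have h2 := hRfin j hjR
    linarith
  obtain ⟨S', hS'⟩ := hoff.step hi N' (newLen p i S t L R) hph.ready.lt
    (newLen_nonneg p i S t L R hRst) L G D' (fun j hj => hLbl j hj)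
    (by
      intro j hj
      rcases Finset.mem_union.1 hj with hj | hj
      · exact Finset.mem_sdiff.2 ⟨hGfbl j hj, fun hjL => hGfR j hj (hLR hjL)⟩
      · exact Finset.mem_sdiff.2 ⟨hRbl j (Finset.mem_sdiff.1 hj).1, (Finset.mem_sdiff.1 hj).2⟩)
    (by
      intro j hj
      rcases Finset.mem_union.1 hj with hj | hj
      · have h1 := hGfR j hj
        have h2 : j ∉ L := fun h => h1 (hLR h)
        unfold newLen
        rw [if_neg h2, if_neg h1]
        split_ifs
        · exact p.lam_pos.le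
        · exact le_rfl
      · obtain ⟨hjR, hjL⟩ := Finset.mem_sdiff.1 hj
        unfold newLen
        rw [if_neg hjL, if_pos hjR]
        have hfj := hfacts j (hRbl j hjR)
        have h1 := hfj.2.2.2.2.2.2.2.2.2.2.2
        rw [div_le_iff₀ (by positivity), ← h1]
        have h2 := hRfin j hjR
        have h3 : (0 : ℝ) ≤ ((S.rect j).w : ℝ) * (S.rect j).h := by positivity
        nlinarith)
    (by
      intro j hj hjL hjG
      have hjR : j ∉ R := by
        intro hjR
        exact hjG (Finset.mem_union_right _ (Finset.mem_sdiff.2 ⟨hjR, hjL⟩))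
      have h1 : ¬ I'.finish S j ≤ t := by
        intro h
        exact hjG (Finset.mem_union_left _ (Finset.mem_filter.2 ⟨hj, h⟩))
      have h2 : t ≤ S.start j := by
        by_contra hc
        push Not at hc h1
        exact hjR (Finset.mem_filter.2 ⟨hj, hc, h1⟩)
      unfold newLen
      rw [if_neg hjL, if_neg hjR, if_pos h2])
    (by
      intro j hj
      unfold newLen
      rw [if_pos hj])
    (by
      intro j hj
      obtain ⟨hjR, hjL⟩ := Finset.mem_sdiff.1 hj
      exact Finset.mem_sdiff.2 ⟨hRbl j hjR, hjL⟩)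
  refine ⟨B', D', F ∪ L, U ∪ C, _, _, S', _, hphase,
    ⟨hS'.feas, hS'.K_nonneg, hS'.D_sub, hS'.cover, hS'.lf_lt, hS'.lf_a, hS'.lf_b, hS'.lf_len,
      hS'.lf_pred, ?_⟩, ?_⟩
  · intro s hs
    refine (hS'.lf_cnt s hs).trans ?_
    by_cases hsi : s = i
    · simp only [hsi, if_true]
      linarith
    · simp [hsi]
  · -- cost
    have hwork := fin_work hF (lo := B.N) (hi := B.N + N') hN.ge hT p.eps_pos ht1
      (fun j hj => (hfacts j hj).2.2.2.2.2.1) hbefore
    have h1 : ∑ j ∈ Gf, ((S.rect j).w : ℝ) * (S.rect j).h * (I'.finish S j - S.start j) =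
        (Gf.card : ℝ) * (p.lam * ((p.a i : ℝ) * p.b i)) := by
      rw [Finset.sum_congr rfl (fun j hj => (hfacts j (hGfbl j hj)).2.2.2.2.2.2.2.2.2.2.2),
        Finset.sum_const, nsmul_eq_mul]
    have h2 : (Gf.card : ℝ) * (p.lam * ((p.a i : ℝ) * p.b i)) ≤
        (n : ℝ) ^ 2 / p.T * (t - σ) + (n : ℝ) ^ 2 * p.eps := by
      rw [← h1]
      exact hwork
    have h3 : (G.card : ℝ) ≤ Gf.card + R.card := by
      have h4 : G.card ≤ Gf.card + (R \ L).card := Finset.card_union_le _ _
      have h5 : (R \ L).card ≤ R.card := Finset.card_le_card Finset.sdiff_subset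
      have h6 : G.card ≤ Gf.card + R.card := by omega
      exact_mod_cast h6
    have hslots := slots_ge (p.a_pos i) (p.a_le hi) (p.b_pos i) (p.b_le (i := i))
    have hPpos : (0 : ℝ) < (slots n (p.a i) (p.b i) : ℝ) := by
      exact_mod_cast slots_pos (p.a_pos i) (p.a_le hi) (p.b_pos i) (p.b_le (i := i))
    have h4 : p.lam * ((G.card : ℝ) / (slots n (p.a i) (p.b i) : ℝ)) ≤
        p.lam * (Gf.card + R.card) * (4 * ((p.a i : ℝ) * p.b i)) / (n : ℝ) ^ 2 := by
      rw [← mul_div_assoc, div_le_div_iff₀ hPpos hn2]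
      rw [div_le_iff₀ (by positivity)] at hslots
      calc p.lam * (G.card : ℝ) * (n : ℝ) ^ 2 ≤
            p.lam * (Gf.card + R.card) * ((slots n (p.a i) (p.b i) : ℝ) *
              (4 * ((p.a i : ℝ) * p.b i))) := by
              gcongr
        _ = _ := by ring
    have h5 : p.lam * (Gf.card + R.card) * (4 * ((p.a i : ℝ) * p.b i)) / (n : ℝ) ^ 2 ≤
        4 * (t - σ) / p.T + 4 * p.eps + 4 * p.lam * p.T := by
      rw [div_le_iff₀ hn2]
      have e1 : p.lam * ((Gf.card : ℝ) + R.card) * (4 * ((p.a i : ℝ) * p.b i)) =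
          4 * ((Gf.card : ℝ) * (p.lam * ((p.a i : ℝ) * p.b i))) +
          4 * p.lam * ((R.card : ℝ) * ((p.a i : ℝ) * p.b i)) := by ring
      rw [e1]
      have e2 : 4 * p.lam * ((R.card : ℝ) * ((p.a i : ℝ) * p.b i)) ≤
          4 * p.lam * (p.T * (n : ℝ) ^ 2) := by gcongr
      have e3 : (4 * (t - σ) / p.T + 4 * p.eps + 4 * p.lam * p.T) * (n : ℝ) ^ 2 =
          4 * ((n : ℝ) ^ 2 / p.T * (t - σ) + (n : ℝ) ^ 2 * p.eps) +
          4 * p.lam * (p.T * (n : ℝ) ^ 2) := by
        field_simp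
      rw [e3]
      linarith
    have h6 : p.lam * ((G.card : ℝ) / (slots n (p.a i) (p.b i) : ℝ) + 1) =
        p.lam * ((G.card : ℝ) / (slots n (p.a i) (p.b i) : ℝ)) + p.lam := by ring
    rw [h6]
    unfold Par.δ
    linarith

end Pool.Agent.Helper472.Mesh
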