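import Pool.Agent.Helper472.Mesh.CaseA

open Classical

namespace Pool.Agent.Helper472.Mesh

variable {n : ℕ}

variable {A : Inst n → Sched} {ρ : ℝ} {p : Par n} {θ : ℝ} {i : ℕ} {B : Inst n} {D : Finset ℕ}
    {σ : ℝ} {F : Finset ℕ} {U : Finset (ℕ × ℕ)}

theorem case2 (hA : Online A) (hρ : Competitive A ρ) (hρT : ρ ≤ p.T)
    (hph : Phase A p θ i B D σ F U) (hi : i < p.Φ)
    {X : Finset ℕ} {Lf : ℕ → Finset ℕ} {Sf : Sched} {K : ℝ} {cnt : ℕ → ℝ}
    (hoff : OffSt p B D X Lf Sf K cnt) (N' : ℕ) (I' : Inst n) (S : Sched)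
    (hI' : I' = dflt p i hi B D hph.ready.lt N') (hS : S = A I')
    (hN1 : (n : ℝ) ^ 2 / (p.lam * p.T * ((p.a i : ℝ) * p.b i)) < N')
    (hN2 : (N' : ℝ) ≤ (n : ℝ) ^ 2 / (p.lam * p.T * ((p.a i : ℝ) * p.b i)) + 1)
    (hlow : ∀ t, σ < t → t < θ + 1 →
      ∑ j ∈ runs I' S B.N (B.N + N') t, ((S.rect j).w : ℝ) * (S.rect j).h ≤ (n : ℝ) ^ 2 / p.T) :
    ∃ (B' : Inst n) (D' : Finset ℕ) (σ' : ℝ) (X' : Finset ℕ)
      (Lf' : ℕ → Finset ℕ) (S' : Sched) (K' : ℝ),
      Ready A B' D' σ' ∧ θ + 1 ≤ σ' ∧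
      OffSt p B' D' X' Lf' S' K' cnt ∧
      K' ≤ K + 4 / p.T + 5 * p.lam := by
  have hF := hA.feasible I'
  rw [← hS] at hF
  have hN : I'.N = B.N + N' := by rw [hI']; rfl
  set bl := Finset.Ico B.N (B.N + N') with hbl
  have hfacts := fun j (hj : j ∈ bl) =>
    block_facts hA hρ hρT hph.ready hi N' I' S hI' hS hj
  have hT := p.T_pos
  have ha0 := p.a_pos' i
  have hb0 := p.b_pos' i
  have hn0 : (0 : ℝ) < n := by exact_mod_cast p.n_pos
  have hn2 : (0 : ℝ) < (n : ℝ) ^ 2 := by positivity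
  have hlam := p.lam_pos
  have hN'pos : 0 < N' := by
    have h1 : (0 : ℝ) < (n : ℝ) ^ 2 / (p.lam * p.T * ((p.a i : ℝ) * p.b i)) := by positivity
    have h2 : (0 : ℝ) < N' := h1.trans hN1
    exact_mod_cast h2
  have hblne : bl.Nonempty := by
    rw [hbl, Finset.nonempty_Ico]
    omega
  have hblcard : bl.card = N' := by
    rw [hbl, Nat.card_Ico]
    omega
  -- not everything is finished by time `θ + 1`
  have hex : ∃ j ∈ bl, θ + 1 < I'.finish S j := by
    by_contra hcon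
    push Not at hcon
    have h1 := work_le bl (fun j => ((S.rect j).w : ℝ) * (S.rect j).h) S.start (I'.finish S)
      σ (θ + 1) ((n : ℝ) ^ 2 / p.T) (fun j _ => by positivity)
      (fun j hj => (hfacts j hj).2.2.2.2.2.1)
      (fun j hj => I'.start_le_finish S (hfacts j hj).1)
      hcon hph.lt_th.le (by positivity)
      (fun t ht1 ht2 => hlow t ht1 ht2)
    have h2 : ∑ j ∈ bl, ((S.rect j).w : ℝ) * (S.rect j).h * (I'.finish S j - S.start j) =
        (N' : ℝ) * (p.lam * ((p.a i : ℝ) * p.b i)) := by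
      rw [Finset.sum_congr rfl (fun j hj => (hfacts j hj).2.2.2.2.2.2.2.2.2.2.2),
        Finset.sum_const, nsmul_eq_mul, hblcard]
    rw [h2] at h1
    have h3 : (n : ℝ) ^ 2 / p.T * (θ + 1 - σ) ≤ (n : ℝ) ^ 2 / p.T := by
      have h4 := hph.th_le
      have h5 : (0 : ℝ) < (n : ℝ) ^ 2 / p.T := by positivity
      nlinarith
    have h6 : (n : ℝ) ^ 2 / p.T < (N' : ℝ) * (p.lam * ((p.a i : ℝ) * p.b i)) := by
      rw [div_lt_iff₀ (by positivity)] at hN1
      rw [div_lt_iff₀ hT]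
      calc (n : ℝ) ^ 2 < N' * (p.lam * p.T * ((p.a i : ℝ) * p.b i)) := hN1
        _ = _ := by ring
    linarith
  obtain ⟨j₀, hj₀, hj₀max⟩ := Finset.exists_max_image bl (I'.finish S) hblne
  set σ' := I'.finish S j₀ with hσ'
  have hσ'θ : θ + 1 < σ' := by
    obtain ⟨j, hj, hj1⟩ := hex
    exact lt_of_lt_of_le hj1 (hj₀max j hj)
  have hready : Ready A I' bl σ' := by
    refine ⟨?_, ?_, ?_, ?_⟩
    · intro j hj; exact (hfacts j hj).1
    · intro j hj
      rw [← hS]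
      refine lt_of_lt_of_le ?_ (hj₀max j hj)
      have hfj := hfacts j hj
      have h1 := hfj.2.2.2.2.2.2.2.2.2.2.2
      have hw0 : (0 : ℝ) < (S.rect j).w := by exact_mod_cast hF.w_pos j hfj.1
      have hh0 : (0 : ℝ) < (S.rect j).h := by exact_mod_cast hF.h_pos j hfj.1
      have h2 : 0 < ((S.rect j).w : ℝ) * (S.rect j).h * (I'.finish S j - S.start j) := by
        rw [h1]; positivity
      have h3 : 0 < I'.finish S j - S.start j := by
        by_contra hc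
        push Not at hc
        have : ((S.rect j).w : ℝ) * (S.rect j).h * (I'.finish S j - S.start j) ≤ 0 :=
          mul_nonpos_of_nonneg_of_nonpos (by positivity) hc
        linarith
      linarith
    · intro j hj
      rw [← hS]
      exact hj₀max j hj
    · exact ⟨j₀, hj₀, by rw [← hS]⟩
  obtain ⟨S', hS'⟩ := hoff.step hi N' (fun _ => p.lam) hph.ready.lt (fun _ => p.lam_pos.le)
    ∅ bl bl (Finset.empty_subset _) (by simp [hbl]) (fun j _ => le_rfl)
    (fun j hj _ hjG => absurd hj hjG) (fun j hj => by simp at hj) (by simp [hbl])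
  rw [hblcard] at hS'
  refine ⟨I', bl, σ', X ∪ (bl \ ∅), Function.update Lf i (Lf i ∪ ∅), S',
    K + p.lam * ((N' : ℝ) / (slots n (p.a i) (p.b i) : ℝ) + 1), hready, hσ'θ.le, ?_, ?_⟩
  · rw [hI']
    refine ⟨hS'.feas, hS'.K_nonneg, hS'.D_sub, hS'.cover, hS'.lf_lt, hS'.lf_a, hS'.lf_b,
      hS'.lf_len, hS'.lf_pred, ?_⟩
    intro s hs
    refine (hS'.lf_cnt s hs).trans ?_
    simp
  · have hslots := slots_ge (p.a_pos i) (p.a_le hi) (p.b_pos i) (p.b_le (i := i))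
    have hPpos : (0 : ℝ) < (slots n (p.a i) (p.b i) : ℝ) := by
      exact_mod_cast slots_pos (p.a_pos i) (p.a_le hi) (p.b_pos i) (p.b_le (i := i))
    have h4 : p.lam * ((N' : ℝ) / (slots n (p.a i) (p.b i) : ℝ)) ≤
        p.lam * N' * (4 * ((p.a i : ℝ) * p.b i)) / (n : ℝ) ^ 2 := by
      rw [← mul_div_assoc, div_le_div_iff₀ hPpos hn2]
      rw [div_le_iff₀ (by positivity)] at hslots
      calc p.lam * (N' : ℝ) * (n : ℝ) ^ 2 ≤
            p.lam * N' * ((slots n (p.a i) (p.b i) : ℝ) *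
              (4 * ((p.a i : ℝ) * p.b i))) := by
              gcongr
        _ = _ := by ring
    have hab : (p.a i : ℝ) * p.b i ≤ (n : ℝ) ^ 2 := by
      have h1 : (p.a i : ℝ) ≤ n := by exact_mod_cast p.a_le hi
      have h2 : (p.b i : ℝ) ≤ n := by exact_mod_cast p.b_le (i := i)
      rw [sq]
      gcongr
    have h5 : p.lam * N' * (4 * ((p.a i : ℝ) * p.b i)) / (n : ℝ) ^ 2 ≤ 4 / p.T + 4 * p.lam := by
      rw [div_le_iff₀ hn2]
      calc p.lam * (N' : ℝ) * (4 * ((p.a i : ℝ) * p.b i)) ≤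
            p.lam * ((n : ℝ) ^ 2 / (p.lam * p.T * ((p.a i : ℝ) * p.b i)) + 1) *
              (4 * ((p.a i : ℝ) * p.b i)) := by gcongr
        _ = 4 / p.T * (n : ℝ) ^ 2 + 4 * p.lam * ((p.a i : ℝ) * p.b i) := by
            field_simp
        _ ≤ 4 / p.T * (n : ℝ) ^ 2 + 4 * p.lam * (n : ℝ) ^ 2 := by gcongr
        _ = _ := by ring
    have h6 : p.lam * ((N' : ℝ) / (slots n (p.a i) (p.b i) : ℝ) + 1) =
        p.lam * ((N' : ℝ) / (slots n (p.a i) (p.b i) : ℝ)) + p.lam := by ring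
    linarith

/-- state of the adversary inside round `r` -/
def PState (A : Inst n → Sched) (p : Par n) (r : ℕ) (θ K₀ : ℝ) (i : ℕ) : Prop :=
  ∃ (B : Inst n) (D : Finset ℕ) (σ : ℝ) (F : Finset ℕ) (U : Finset (ℕ × ℕ)) (X : Finset ℕ)
    (Lf : ℕ → Finset ℕ) (S : Sched) (K : ℝ), Phase A p θ i B D σ F U ∧
    OffSt p B D X Lf S K (fun s => ((r : ℝ) + if s < i then 1 else 0) * p.Y s) ∧
    K ≤ K₀ + 4 * (σ - θ) / p.T + i * p.δ ∧ (r : ℝ) ≤ θ

/-- state of the adversary at the beginning of round `r` -/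
def RState (A : Inst n → Sched) (p : Par n) (r : ℕ) (K₀ : ℝ) : Prop :=
  ∃ (B : Inst n) (D : Finset ℕ) (σ : ℝ) (X : Finset ℕ)
    (Lf : ℕ → Finset ℕ) (S : Sched) (K : ℝ), Ready A B D σ ∧
    OffSt p B D X Lf S K (fun s => (r : ℝ) * p.Y s) ∧ K ≤ K₀ ∧ (r : ℝ) ≤ σ

lemma OffSt.mono {D X : Finset ℕ} {Lf : ℕ → Finset ℕ} {S : Sched}
    {K : ℝ} {cnt cnt' : ℕ → ℝ} (h : OffSt p B D X Lf S K cnt) (hc : ∀ s < p.Φ, cnt s ≤ cnt' s) :
    OffSt p B D X Lf S K cnt' :=
  ⟨h.feas, h.K_nonneg, h.D_sub, h.cover, h.lf_lt, h.lf_a, h.lf_b, h.lf_len, h.lf_pred,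
    fun s hs => (h.lf_cnt s hs).trans (hc s hs)⟩

theorem pstep (hA : Online A) (hρ : Competitive A ρ) (hρT : ρ ≤ p.T) {r : ℕ} {K₀ : ℝ}
    (h : PState A p r θ K₀ i) :
    PState A p r θ K₀ (i + 1) ∨ RState A p (r + 1) (K₀ + 9 / p.T) := by
  obtain ⟨B, D, σ, F, U, X, Lf, Sf, K, hph, hoff, hK, hr⟩ := h
  obtain ⟨hiT, hi⟩ := hph.i_lt
  have hT := p.T_pos
  have hlam := p.lam_pos
  have ha0 := p.a_pos' i
  have hb0 := p.b_pos' i
  have hn0 : (0 : ℝ) < n := by exact_mod_cast p.n_pos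
  have hn2 : (0 : ℝ) < (n : ℝ) ^ 2 := by positivity
  set N' := ⌊(n : ℝ) ^ 2 / (p.lam * p.T * ((p.a i : ℝ) * p.b i))⌋₊ + 1 with hN'
  have hN1 : (n : ℝ) ^ 2 / (p.lam * p.T * ((p.a i : ℝ) * p.b i)) < N' := by
    rw [hN']
    push_cast
    exact Nat.lt_floor_add_one _
  have hN2 : (N' : ℝ) ≤ (n : ℝ) ^ 2 / (p.lam * p.T * ((p.a i : ℝ) * p.b i)) + 1 := by
    rw [hN']
    push_cast
    have := Nat.floor_le (show 0 ≤ (n : ℝ) ^ 2 / (p.lam * p.T * ((p.a i : ℝ) * p.b i)) by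
      positivity)
    linarith
  set I' := dflt p i hi B D hph.ready.lt N' with hI'
  set S := A I' with hS
  let cov : ℝ → ℝ := fun t => ∑ j ∈ runs I' S B.N (B.N + N') t, ((S.rect j).w : ℝ) * (S.rect j).h
  by_cases hcase : ∃ t, σ < t ∧ t < θ + 1 ∧ (n : ℝ) ^ 2 / p.T ≤ cov t
  · left
    set Tset : Set ℝ := {t | σ < t ∧ t < θ + 1 ∧ (n : ℝ) ^ 2 / p.T ≤ cov t} with hTset
    have hne : Tset.Nonempty := hcase
    have hbdd : BddBelow Tset := ⟨σ, fun t ht => ht.1.le⟩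
    obtain ⟨t, ht, htlt⟩ := Real.lt_sInf_add_pos hne p.eps_pos
    obtain ⟨ht1, ht2, ht3⟩ := ht
    have hbefore : ∀ t', σ < t' → t' ≤ t - p.eps →
        ∑ j ∈ runs I' S B.N (B.N + N') t', ((S.rect j).w : ℝ) * (S.rect j).h ≤
          (n : ℝ) ^ 2 / p.T := by
      intro t' h1 h2
      by_contra hc
      push Not at hc
      have h3 : t' ∈ Tset := ⟨h1, by have := p.eps_pos; linarith, hc.le⟩
      have h4 := csInf_le hbdd h3
      linarith
    obtain ⟨B', D', F', U', X', Lf', S', K', hph', hoff', hK'⟩ :=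
      case1 hA hρ hρT hph hi hoff N' I' S hI' hS t ht1 ht2 ht3 hbefore
    refine ⟨B', D', t, F', U', X', Lf', S', K', hph', hoff'.mono ?_, ?_, hr⟩
    · intro s _
      have hY := p.Y_nonneg s
      rcases lt_trichotomy s i with h1 | h1 | h1
      · have h2 : s < i + 1 := by omega
        have h3 : s ≠ i := by omega
        simp [h1, h2, h3]
      · subst h1
        simp
        linarith
      · have h2 : ¬ s < i + 1 := by omega
        have h3 : ¬ s < i := by omega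
        have h4 : s ≠ i := by omega
        simp [h2, h3, h4]
    · push_cast
      have e1 : 4 * (t - θ) / p.T = 4 * (t - σ) / p.T + 4 * (σ - θ) / p.T := by
        ring
      rw [e1]
      linarith
  · right
    push Not at hcase
    obtain ⟨B', D', σ', X', Lf', S', K', hready, hσ', hoff', hK'⟩ :=
      case2 hA hρ hρT hph hi hoff N' I' S hI' hS hN1 hN2
        (fun t h1 h2 => (hcase t h1 h2).le)
    refine ⟨B', D', σ', X', Lf', S', K', hready, hoff'.mono ?_, ?_, ?_⟩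
    · intro s _
      have hY := p.Y_nonneg s
      push_cast
      split_ifs
      · exact le_rfl
      · nlinarith
    · have h1 : 4 * (σ - θ) / p.T ≤ 4 / p.T := by
        have := hph.lt_th
        gcongr
        linarith
      have h2 : (i : ℝ) * p.δ ≤ 2 * p.T * p.δ := by
        have := p.δ_pos
        gcongr
      have h3 := p.small
      have h4 : 2 * p.T * (4 * p.eps + 4 * p.lam * p.T + p.lam) = 2 * p.T * p.δ := rfl
      rw [h4] at h3
      have h5 : 9 / p.T = 4 / p.T + 4 / p.T + 1 / p.T := by ring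
      rw [h5]
      linarith
    · push_cast
      linarith

lemma no_phi {r : ℕ} {K₀ : ℝ} (h : PState A p r θ K₀ i) : i < p.Φ := by
  obtain ⟨B, D, σ, F, U, X, Lf, Sf, K, hph, hoff, hK, hr⟩ := h
  exact hph.i_lt.2

theorem rstep (hA : Online A) (hρ : Competitive A ρ) (hρT : ρ ≤ p.T) {r : ℕ} {K₀ : ℝ}
    (h : RState A p r K₀) : RState A p (r + 1) (K₀ + 9 / p.T) := by
  obtain ⟨B, D, σ, X, Lf, Sf, K, hready, hoff, hK, hr⟩ := h
  have h0 : PState A p r σ K₀ 0 := by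
    refine ⟨B, D, σ, ∅, ∅, X, Lf, Sf, K, ?_, ?_, ?_, hr⟩
    · refine ⟨hready, le_rfl, by linarith, by simp, by simp, by simp, by simp, by simp, by simp,
        ?_⟩
      intro s _ _ Q _ _ _ _ _ _ _
      simp
    · simpa using hoff
    · simpa using hK
  by_contra hcon
  have hall : ∀ i, PState A p r σ K₀ i := by
    intro i
    induction i with
    | zero => exact h0
    | succ i ih =>
      rcases pstep hA hρ hρT ih with h1 | h1
      · exact h1
      · exact absurd h1 hcon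
  exact absurd (no_phi (hall p.Φ)) (lt_irrefl _)

end Pool.Agent.Helper472.Mesh
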