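import Pool.Agent.Helper472.Mesh.CaseB

open Classical

namespace Pool.Agent.Helper472.Mesh

variable {n : ℕ}

/-- the instance with a single unit job -/
noncomputable def oneJob (n : ℕ) (hn : 1 ≤ n) : Inst n where
  N := 1
  a := fun _ => 1
  b := fun _ => 1
  len := fun _ => 1
  pred := fun _ => ∅
  a_pos := fun _ _ => le_rfl
  a_le := fun _ _ => hn
  b_pos := fun _ _ => le_rfl
  b_le := fun _ _ => hn
  len_nonneg := fun _ _ => zero_le_one
  pred_lt := by simp

lemma rstate_zero {A : Inst n → Sched} (hA : Online A) (p : Par n) : RState A p 0 1 := by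
  set B := oneJob n p.n_pos with hB
  have hF := hA.feasible B
  have h0 : 0 < B.N := Nat.one_pos
  have hw : (((A B).rect 0).w : ℝ) = 1 := by
    have h1 := hF.w_pos 0 h0
    have h2 := hF.w_le 0 h0
    have h3 : B.a 0 = 1 := rfl
    have h4 : ((A B).rect 0).w = 1 := by omega
    rw [h4]; norm_num
  have hh : (((A B).rect 0).h : ℝ) = 1 := by
    have h1 := hF.h_pos 0 h0
    have h2 := hF.h_le 0 h0
    have h3 : B.b 0 = 1 := rfl
    have h4 : ((A B).rect 0).h = 1 := by omega
    rw [h4]; norm_num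
  have hfin : B.finish (A B) 0 = (A B).start 0 + 1 := by
    unfold Inst.finish
    rw [hw, hh]
    simp [hB, oneJob]
  refine ⟨B, {0}, B.finish (A B) 0, {0}, fun _ => ∅, ⟨fun _ => 0, fun _ => ⟨0, 0, 1, 1⟩⟩, 1,
    ⟨?_, ?_, ?_, ?_⟩, ⟨⟨?_, ?_, ?_, ?_, ?_, ?_, ?_, ?_, ?_, ?_, ?_, ?_⟩, ?_, ?_, ?_, ?_, ?_, ?_, ?_,
      ?_, ?_⟩, le_rfl, ?_⟩
  · intro i hi
    rw [Finset.mem_singleton.1 hi]
    exact h0
  · intro i hi
    rw [Finset.mem_singleton.1 hi, hfin]
    linarith
  · intro i hi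
    rw [Finset.mem_singleton.1 hi]
  · exact ⟨0, Finset.mem_singleton_self 0, rfl⟩
  · intro i hi
    rw [Finset.mem_singleton.1 hi]
    exact h0
  · intro i _; exact le_rfl
  · intro i _; exact le_rfl
  · intro i _; exact le_rfl
  · intro i _; exact le_rfl
  · intro i _; exact le_rfl
  · intro i _; simpa using p.n_pos
  · intro i _; simpa using p.n_pos
  · intro i _
    simp [Inst.finish, hB, oneJob]
  · intro i _ j hj
    simp [hB, oneJob] at hj
  · intro i _ j hj
    simp [hB, oneJob] at hj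
  · intro i hi j hj hij
    rw [Finset.mem_singleton.1 hi, Finset.mem_singleton.1 hj] at hij
    exact absurd rfl hij
  · exact zero_le_one
  · exact subset_rfl
  · intro j hj
    left
    have h1 : j < 1 := hj
    rw [Finset.mem_singleton]
    omega
  · intro s _ j hj; simp at hj
  · intro s _ j hj; simp at hj
  · intro s _ j hj; simp at hj
  · intro s _ j hj; simp at hj
  · intro s _ j hj; simp at hj
  · intro s _; simp
  · rw [hfin]
    have := hF.start_nonneg 0 h0
    push_cast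
    linarith

lemma rstate_all {A : Inst n → Sched} (hA : Online A) {ρ : ℝ} (hρ : Competitive A ρ) (p : Par n)
    (hρT : ρ ≤ p.T) (r : ℕ) : RState A p r (1 + r * (9 / p.T)) := by
  induction r with
  | zero => simpa using rstate_zero hA p
  | succ r ih =>
    have := rstep hA hρ hρT ih
    have e : 1 + ((r + 1 : ℕ) : ℝ) * (9 / p.T) = 1 + r * (9 / p.T) + 9 / p.T := by
      push_cast
      ring
    rw [e]
    exact this

/-- the competitive ratio is at least `T / 10` -/
theorem par_bound {A : Inst n → Sched} (hA : Online A) {ρ : ℝ} (hρ : Competitive A ρ) (p : Par n)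
    (hM : 8 * (p.Φ : ℝ) * p.T ^ 2 * (1 + Real.log ((n : ℝ) ^ 4)) ≤ p.M) : p.T / 10 ≤ ρ := by
  have hT := p.T_pos
  rcases lt_or_ge p.T ρ with h | hρT
  · linarith
  have hMp := p.M_pos
  have hlog := p.log_nonneg
  have hn0 : (0 : ℝ) < n := by exact_mod_cast p.n_pos
  have hn2 : (0 : ℝ) < (n : ℝ) ^ 2 := by positivity
  -- `ρ ≥ 1`
  have hρ1 : 1 ≤ ρ := by
    set B := oneJob n p.n_pos with hB
    have hF := hA.feasible B
    have h0 : 0 < B.N := Nat.one_pos
    have h1 := noshrink hA hρ B h0 (by simp [hB, oneJob])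
    have hw : (((A B).rect 0).w : ℝ) ≤ 1 := by
      have h2 := hF.w_le 0 h0
      exact_mod_cast h2
    have hw0 : (0 : ℝ) < ((A B).rect 0).w := by exact_mod_cast hF.w_pos 0 h0
    have hh0 : (0 : ℝ) < ((A B).rect 0).h := by exact_mod_cast hF.h_pos 0 h0
    have hh : (((A B).rect 0).h : ℝ) ≤ 1 := by
      have h2 := hF.h_le 0 h0
      exact_mod_cast h2
    have h3 : ((B.a 0 : ℕ) : ℝ) * B.b 0 = 1 := by simp [hB, oneJob]
    rw [h3] at h1
    have h4 : (((A B).rect 0).w : ℝ) * ((A B).rect 0).h ≤ 1 := by nlinarith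
    by_contra hc
    push Not at hc
    have h5 : 0 < (((A B).rect 0).w : ℝ) * ((A B).rect 0).h := by positivity
    nlinarith
  by_contra hcon
  push Not at hcon
  -- for every number of rounds
  have key : ∀ r : ℕ, (r : ℝ) ≤ ρ * (1 + 2 * p.Φ + r * (10 / p.T)) := by
    intro r
    obtain ⟨B, D, σ, X, Lf, S, K, hready, hoff, hK, hr⟩ := rstate_all hA hρ p hρT r
    obtain ⟨j, hj, hjf⟩ := hready.fin_eq
    have h1 := B.le_makespan (A B) (hready.lt j hj)
    have h2 := hρ B
    have h3 := hoff.final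
    have h4 : ∑ s ∈ Finset.range p.Φ, 2 * ((r : ℝ) * p.Y s / (slots n (p.a s) (p.b s) : ℝ) + 1) ≤
        2 * p.Φ + r * (1 / p.T) := by
      have h5 : ∀ s ∈ Finset.range p.Φ,
          2 * ((r : ℝ) * p.Y s / (slots n (p.a s) (p.b s) : ℝ) + 1) ≤
          8 * r * p.T * (1 + Real.log ((n : ℝ) ^ 4)) / p.M + 2 := by
        intro s hs
        have hs' := Finset.mem_range.1 hs
        have ha0 := p.a_pos' s
        have hb0 := p.b_pos' s
        have hslots := slots_ge (p.a_pos s) (p.a_le hs') (p.b_pos s) (p.b_le (i := s))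
        have hPpos : (0 : ℝ) < (slots n (p.a s) (p.b s) : ℝ) := by
          exact_mod_cast slots_pos (p.a_pos s) (p.a_le hs') (p.b_pos s) (p.b_le (i := s))
        rw [div_le_iff₀ (by positivity)] at hslots
        have h6 : (r : ℝ) * p.Y s / (slots n (p.a s) (p.b s) : ℝ) ≤
            4 * r * p.T * (1 + Real.log ((n : ℝ) ^ 4)) / p.M := by
          rw [div_le_div_iff₀ hPpos hMp]
          unfold Par.Y
          have e1 : (r : ℝ) * (p.T * (n : ℝ) ^ 2 / ((p.a s : ℝ) * p.b s) / p.M *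
              (1 + Real.log ((n : ℝ) ^ 4))) * p.M =
              (r * p.T * (1 + Real.log ((n : ℝ) ^ 4)) / ((p.a s : ℝ) * p.b s)) * (n : ℝ) ^ 2 := by
            field_simp
          rw [e1]
          calc (r * p.T * (1 + Real.log ((n : ℝ) ^ 4)) / ((p.a s : ℝ) * p.b s)) * (n : ℝ) ^ 2 ≤
                (r * p.T * (1 + Real.log ((n : ℝ) ^ 4)) / ((p.a s : ℝ) * p.b s)) *
                ((slots n (p.a s) (p.b s) : ℝ) * (4 * ((p.a s : ℝ) * p.b s))) := by gcongr
            _ = _ := by field_simp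
        have e2 : 8 * (r : ℝ) * p.T * (1 + Real.log ((n : ℝ) ^ 4)) / p.M + 2 =
            2 * (4 * r * p.T * (1 + Real.log ((n : ℝ) ^ 4)) / p.M + 1) := by ring
        rw [e2]
        linarith
      refine (Finset.sum_le_sum h5).trans ?_
      rw [Finset.sum_const, Finset.card_range, nsmul_eq_mul]
      have h7 : (p.Φ : ℝ) * (8 * r * p.T * (1 + Real.log ((n : ℝ) ^ 4)) / p.M) ≤ r * (1 / p.T) := by
        rw [mul_one_div, ← mul_div_assoc, div_le_div_iff₀ hMp hT]
        calc (p.Φ : ℝ) * (8 * r * p.T * (1 + Real.log ((n : ℝ) ^ 4))) * p.T =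
              r * (8 * (p.Φ : ℝ) * p.T ^ 2 * (1 + Real.log ((n : ℝ) ^ 4))) := by ring
          _ ≤ r * p.M := by gcongr
      linarith
    have h8 : B.opt ≤ 1 + 2 * p.Φ + r * (10 / p.T) := by
      have e3 : (r : ℝ) * (10 / p.T) = r * (9 / p.T) + r * (1 / p.T) := by ring
      rw [e3]
      linarith
    calc (r : ℝ) ≤ σ := hr
      _ = B.finish (A B) j := hjf.symm
      _ ≤ B.makespan (A B) := h1
      _ ≤ ρ * B.opt := h2
      _ ≤ ρ * (1 + 2 * p.Φ + r * (10 / p.T)) := by gcongr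
  have hd : 0 < 1 - ρ * (10 / p.T) := by
    rw [sub_pos, ← mul_div_assoc, div_lt_one hT]
    linarith
  obtain ⟨r, hr⟩ := exists_nat_gt (ρ * (1 + 2 * p.Φ) / (1 - ρ * (10 / p.T)))
  rw [div_lt_iff₀ hd] at hr
  have := key r
  nlinarith

end Pool.Agent.Helper472.Mesh
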