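import Mathlib

open Classical

namespace Pool.Agent.Helper472.Mesh

/-- A contiguous rectangle of processors of the mesh: lower left corner `(x, y)`, sides `w`, `h`. -/
structure Rect where
  x : ℕ
  y : ℕ
  w : ℕ
  h : ℕ

/-- The processors of a rectangle. -/
def Rect.cells (Q : Rect) : Finset (ℕ × ℕ) :=
  Finset.Ico Q.x (Q.x + Q.w) ×ˢ Finset.Ico Q.y (Q.y + Q.h)

/-- A problem instance on the `n × n` mesh: `N` jobs `0, …, N - 1`; job `j` requests an
`a j × b j` submesh, has running time `len j ≥ 0`, and its set of predecessors is `pred j`.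
The dependency graph is acyclic because the jobs are numbered topologically. -/
structure Inst (n : ℕ) where
  N : ℕ
  a : ℕ → ℕ
  b : ℕ → ℕ
  len : ℕ → ℝ
  pred : ℕ → Finset ℕ
  a_pos : ∀ j < N, 1 ≤ a j
  a_le : ∀ j < N, a j ≤ n
  b_pos : ∀ j < N, 1 ≤ b j
  b_le : ∀ j < N, b j ≤ n
  len_nonneg : ∀ j < N, 0 ≤ len j
  pred_lt : ∀ j < N, ∀ i ∈ pred j, i < j

/-- A schedule: for every job a starting time and the rectangle on which it runs. -/
structure Sched where
  start : ℕ → ℝ
  rect : ℕ → Rect

variable {n : ℕ}

/-- The time at which job `j` finishes: a job requesting `a × b` with running time `len` that runs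
on a `w × h` rectangle takes time `len * (a * b) / (w * h)`. -/
noncomputable def Inst.finish (I : Inst n) (S : Sched) (j : ℕ) : ℝ :=
  S.start j + I.len j * ((I.a j : ℝ) * (I.b j : ℝ)) /
    (((S.rect j).w : ℝ) * ((S.rect j).h : ℝ))

/-- Feasible schedules of an instance. -/
structure Inst.Feasible (I : Inst n) (S : Sched) : Prop where
  start_nonneg : ∀ j < I.N, 0 ≤ S.start j
  w_pos : ∀ j < I.N, 1 ≤ (S.rect j).w
  h_pos : ∀ j < I.N, 1 ≤ (S.rect j).h
  w_le : ∀ j < I.N, (S.rect j).w ≤ I.a j
  h_le : ∀ j < I.N, (S.rect j).h ≤ I.b j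
  x_le : ∀ j < I.N, (S.rect j).x + (S.rect j).w ≤ n
  y_le : ∀ j < I.N, (S.rect j).y + (S.rect j).h ≤ n
  prec : ∀ j < I.N, ∀ i ∈ I.pred j, I.finish S i ≤ S.start j
  excl : ∀ i < I.N, ∀ j < I.N, i ≠ j → ∀ t : ℝ,
    S.start i ≤ t → t < I.finish S i → S.start j ≤ t → t < I.finish S j →
      Disjoint (S.rect i).cells (S.rect j).cells

/-- The makespan: the latest finishing time. -/
noncomputable def Inst.makespan (I : Inst n) (S : Sched) : ℝ :=
  ⨆ j : Fin I.N, I.finish S j

/-- The optimal offline makespan. -/
noncomputable def Inst.opt (I : Inst n) : ℝ :=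
  sInf (I.makespan '' {S : Sched | I.Feasible S})

/-- The jobs that are finished strictly before time `t` under the schedule `S`. -/
noncomputable def Inst.done (I : Inst n) (S : Sched) (t : ℝ) : Finset ℕ :=
  (Finset.range I.N).filter (fun j => I.finish S j < t)

/-- The jobs that are available (hence known to the algorithm) once the jobs of `F` are finished:
all predecessors are in `F`. -/
noncomputable def Inst.known (I : Inst n) (F : Finset ℕ) : Finset ℕ :=
  (Finset.range I.N).filter (fun j => I.pred j ⊆ F)

/-- If the schedule `S` is followed, then everything that is revealed strictly before time `t`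
is the same for `I` and for `I'`: the same jobs have become available, with the same requests and
predecessors; the jobs that are finished have the same running times; and the
available jobs which are unfinished under `I` are unfinished under `I'` too. -/
structure SameInfo (I I' : Inst n) (S : Sched) (t : ℝ) : Prop where
  known_eq : I'.known (I.done S t) = I.known (I.done S t)
  dims : ∀ j ∈ I.known (I.done S t), I'.a j = I.a j ∧ I'.b j = I.b j ∧ I'.pred j = I.pred j
  len_eq : ∀ j ∈ I.done S t, I'.len j = I.len j
  undone : ∀ j ∈ I.known (I.done S t), j ∉ I.done S t → t ≤ I'.finish S j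

/-- Deterministic online algorithms: they produce feasible schedules, and whatever is started
before time `t` depends only on what is revealed before time `t`. -/
structure Online (A : Inst n → Sched) : Prop where
  feasible : ∀ I : Inst n, I.Feasible (A I)
  nonanticipating : ∀ (I I' : Inst n) (t : ℝ), SameInfo I I' (A I) t →
    ∀ j : ℕ, ((j < I.N ∧ (A I).start j < t) ↔ (j < I'.N ∧ (A I').start j < t)) ∧
      (j < I.N → (A I).start j < t →
        (A I').start j = (A I).start j ∧ (A I').rect j = (A I).rect j)

/-- `A` is `ρ`-competitive. -/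
def Competitive (A : Inst n → Sched) (ρ : ℝ) : Prop :=
  ∀ I : Inst n, I.makespan (A I) ≤ ρ * I.opt

/-- `R_det(m)` for the mesh with `m = n ^ 2` processors: the optimal deterministic
competitive ratio. -/
noncomputable def Rdet (n : ℕ) : ℝ :=
  sInf {ρ : ℝ | ∃ A : Inst n → Sched, Online A ∧ Competitive A ρ}

end Pool.Agent.Helper472.Mesh
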