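import Pool.Agent.Helper472.Mesh.Basic

open Classical

namespace Pool.Agent.Helper472.Mesh

variable {n : ℕ}

/-- feasibility of a schedule restricted to a set of jobs closed under predecessors -/
structure FeasOn (B : Inst n) (S : Sched) (X : Finset ℕ) (K : ℝ) : Prop where
  lt : ∀ j ∈ X, j < B.N
  start_nonneg : ∀ j ∈ X, 0 ≤ S.start j
  w_pos : ∀ j ∈ X, 1 ≤ (S.rect j).w
  h_pos : ∀ j ∈ X, 1 ≤ (S.rect j).h
  w_le : ∀ j ∈ X, (S.rect j).w ≤ B.a j
  h_le : ∀ j ∈ X, (S.rect j).h ≤ B.b j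
  x_le : ∀ j ∈ X, (S.rect j).x + (S.rect j).w ≤ n
  y_le : ∀ j ∈ X, (S.rect j).y + (S.rect j).h ≤ n
  fin : ∀ j ∈ X, B.finish S j ≤ K
  pred_mem : ∀ j ∈ X, ∀ i ∈ B.pred j, i ∈ X
  prec : ∀ j ∈ X, ∀ i ∈ B.pred j, B.finish S i ≤ S.start j
  excl : ∀ i ∈ X, ∀ j ∈ X, i ≠ j → Disjoint (S.rect i).cells (S.rect j).cells ∨
    B.finish S i ≤ S.start j ∨ B.finish S j ≤ S.start i

lemma FeasOn.feasible {B : Inst n} {S : Sched} {X : Finset ℕ} {K : ℝ} (h : FeasOn B S X K)
    (hX : ∀ j < B.N, j ∈ X) : B.Feasible S where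
  start_nonneg := fun j hj => h.start_nonneg j (hX j hj)
  w_pos := fun j hj => h.w_pos j (hX j hj)
  h_pos := fun j hj => h.h_pos j (hX j hj)
  w_le := fun j hj => h.w_le j (hX j hj)
  h_le := fun j hj => h.h_le j (hX j hj)
  x_le := fun j hj => h.x_le j (hX j hj)
  y_le := fun j hj => h.y_le j (hX j hj)
  prec := fun j hj => h.prec j (hX j hj)
  excl := by
    intro i hi j hj hij t h1 h2 h3 h4
    rcases h.excl i (hX i hi) j (hX j hj) hij with h5 | h5 | h5
    · exact h5
    · linarith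
    · linarith

/-- number of `a × b` slots in the mesh -/
def slots (n a b : ℕ) : ℕ := (n / a) * (n / b)

lemma slots_pos {a b : ℕ} (ha : 1 ≤ a) (han : a ≤ n) (hb : 1 ≤ b) (hbn : b ≤ n) :
    0 < slots n a b :=
  Nat.mul_pos (Nat.div_pos han ha) (Nat.div_pos hbn hb)

lemma div_ge {a : ℕ} (ha : 1 ≤ a) (han : a ≤ n) : (n : ℝ) / (2 * a) ≤ ((n / a : ℕ) : ℝ) := by
  have h1 : 1 ≤ n / a := Nat.div_pos han ha
  have h2 : n < a * (n / a + 1) := by
    have := Nat.lt_mul_div_succ n (show 0 < a from ha)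
    exact this
  have h3 : n ≤ 2 * a * (n / a) := by nlinarith
  have ha' : (0 : ℝ) < a := by exact_mod_cast ha
  rw [div_le_iff₀ (by positivity)]
  have : (n : ℝ) ≤ 2 * a * ((n / a : ℕ) : ℝ) := by exact_mod_cast h3
  linarith

lemma slots_ge {a b : ℕ} (ha : 1 ≤ a) (han : a ≤ n) (hb : 1 ≤ b) (hbn : b ≤ n) :
    (n : ℝ) ^ 2 / (4 * (a * b)) ≤ (slots n a b : ℝ) := by
  have h1 := div_ge ha han
  have h2 := div_ge hb hbn
  have ha' : (0 : ℝ) < a := by exact_mod_cast ha
  have hb' : (0 : ℝ) < b := by exact_mod_cast hb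
  unfold slots
  push_cast
  calc (n : ℝ) ^ 2 / (4 * (a * b)) = (n : ℝ) / (2 * a) * (n / (2 * b)) := by field_simp; ring
    _ ≤ _ := mul_le_mul h1 h2 (by positivity) (by positivity)

lemma cells_disjoint {a b q u v : ℕ} (hq : 0 < q) (huv : u ≠ v) :
    Disjoint (Rect.cells ⟨a * (u % q), b * (u / q), a, b⟩)
      (Rect.cells ⟨a * (v % q), b * (v / q), a, b⟩) := by
  rw [Finset.disjoint_left]
  rintro ⟨p, r⟩ h1 h2
  simp only [Rect.cells, Finset.mem_product, Finset.mem_Ico] at h1 h2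
  obtain ⟨⟨h1a, h1b⟩, h1c, h1d⟩ := h1
  obtain ⟨⟨h2a, h2b⟩, h2c, h2d⟩ := h2
  have e1 : u % q = v % q := by
    by_contra hne
    rcases lt_or_gt_of_ne hne with h | h
    · have : a * (u % q + 1) ≤ a * (v % q) := Nat.mul_le_mul_left a h
      have h3 : a * (u % q + 1) = a * (u % q) + a := by ring
      omega
    · have : a * (v % q + 1) ≤ a * (u % q) := Nat.mul_le_mul_left a h
      have h3 : a * (v % q + 1) = a * (v % q) + a := by ring
      omega
  have e2 : u / q = v / q := by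
    by_contra hne
    rcases lt_or_gt_of_ne hne with h | h
    · have : b * (u / q + 1) ≤ b * (v / q) := Nat.mul_le_mul_left b h
      have h3 : b * (u / q + 1) = b * (u / q) + b := by ring
      omega
    · have : b * (v / q + 1) ≤ b * (u / q) := Nat.mul_le_mul_left b h
      have h3 : b * (v / q + 1) = b * (v / q) + b := by ring
      omega
  apply huv
  rw [← Nat.div_add_mod u q, ← Nat.div_add_mod v q, e1, e2]

lemma exists_index (G : Finset ℕ) : ∃ f : ℕ → ℕ, Set.InjOn f G ∧ ∀ j ∈ G, f j < G.card := by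
  refine ⟨fun j => if h : j ∈ G then (G.equivFin ⟨j, h⟩ : ℕ) else 0, ?_, ?_⟩
  · intro i hi j hj hij
    have hi' : i ∈ G := hi
    have hj' : j ∈ G := hj
    simp only [hi', hj', dif_pos] at hij
    have := G.equivFin.injective (Fin.ext hij)
    simpa using this
  · intro j hj
    simp only [hj, dif_pos]
    exact (G.equivFin ⟨j, hj⟩).2

/-- add a family of jobs of equal shape in batches -/
lemma FeasOn.extend {B : Inst n} {S : Sched} {X : Finset ℕ} {K : ℝ} (h : FeasOn B S X K)
    (hK : 0 ≤ K) (G : Finset ℕ) (a b : ℕ) (ℓ : ℝ) (hℓ : 0 ≤ ℓ)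
    (hlt : ∀ j ∈ G, j < B.N) (hX : ∀ j ∈ G, j ∉ X) (ha : ∀ j ∈ G, B.a j = a)
    (hb : ∀ j ∈ G, B.b j = b) (hlen : ∀ j ∈ G, B.len j ≤ ℓ) (hpred : ∀ j ∈ G, B.pred j ⊆ X)
    (ha1 : 1 ≤ a) (han : a ≤ n) (hb1 : 1 ≤ b) (hbn : b ≤ n) :
    ∃ S' : Sched, FeasOn B S' (X ∪ G) (K + ℓ * ((G.card : ℝ) / (slots n a b : ℝ) + 1)) := by
  obtain ⟨f, hf1, hf2⟩ := exists_index G
  set P := slots n a b with hP
  have hP0 : 0 < P := slots_pos ha1 han hb1 hbn
  have hP0' : (0 : ℝ) < P := by exact_mod_cast hP0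
  set q := n / a with hq
  have hq0 : 0 < q := Nat.div_pos han ha1
  let S' : Sched :=
    { start := fun j => if j ∈ G then K + ℓ * ((f j / P : ℕ) : ℝ) else S.start j
      rect := fun j => if j ∈ G then ⟨a * ((f j % P) % q), b * ((f j % P) / q), a, b⟩
        else S.rect j }
  have hstG : ∀ j ∈ G, S'.start j = K + ℓ * ((f j / P : ℕ) : ℝ) := fun j hj => if_pos hj
  have hrG : ∀ j ∈ G, S'.rect j = ⟨a * ((f j % P) % q), b * ((f j % P) / q), a, b⟩ :=
    fun j hj => if_pos hj
  have hXG : ∀ j ∈ X, j ∉ G := fun j hj hG => hX j hG hj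
  have hstX : ∀ j ∈ X, S'.start j = S.start j := fun j hj => if_neg (hXG j hj)
  have hrX : ∀ j ∈ X, S'.rect j = S.rect j := fun j hj => if_neg (hXG j hj)
  have hfX : ∀ j ∈ X, B.finish S' j = B.finish S j := by
    intro j hj
    unfold Inst.finish
    rw [hstX j hj, hrX j hj]
  have ha' : (0 : ℝ) < a := by exact_mod_cast ha1
  have hb' : (0 : ℝ) < b := by exact_mod_cast hb1
  have hfG : ∀ j ∈ G, B.finish S' j = K + ℓ * ((f j / P : ℕ) : ℝ) + B.len j := by
    intro j hj
    unfold Inst.finish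
    rw [hstG j hj, hrG j hj, ha j hj, hb j hj]
    simp only
    field_simp
  have hfG' : ∀ j ∈ G, B.finish S' j ≤ K + ℓ * ((f j / P : ℕ) : ℝ) + ℓ := by
    intro j hj
    rw [hfG j hj]
    have := hlen j hj
    linarith
  have hstGK : ∀ j ∈ G, K ≤ S'.start j := by
    intro j hj
    rw [hstG j hj]
    have : 0 ≤ ℓ * ((f j / P : ℕ) : ℝ) := by positivity
    linarith
  have hKK : K ≤ K + ℓ * ((G.card : ℝ) / (P : ℝ) + 1) := by
    have : 0 ≤ ℓ * ((G.card : ℝ) / (P : ℝ) + 1) := by positivity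
    linarith
  refine ⟨S', ?_, ?_, ?_, ?_, ?_, ?_, ?_, ?_, ?_, ?_, ?_, ?_⟩
  · intro j hj
    rcases Finset.mem_union.1 hj with hj | hj
    · exact h.lt j hj
    · exact hlt j hj
  · intro j hj
    rcases Finset.mem_union.1 hj with hj | hj
    · rw [hstX j hj]; exact h.start_nonneg j hj
    · exact le_trans hK (hstGK j hj)
  · intro j hj
    rcases Finset.mem_union.1 hj with hj | hj
    · rw [hrX j hj]; exact h.w_pos j hj
    · rw [hrG j hj]; exact ha1
  · intro j hj
    rcases Finset.mem_union.1 hj with hj | hj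
    · rw [hrX j hj]; exact h.h_pos j hj
    · rw [hrG j hj]; exact hb1
  · intro j hj
    rcases Finset.mem_union.1 hj with hj | hj
    · rw [hrX j hj]; exact h.w_le j hj
    · rw [hrG j hj, ha j hj]
  · intro j hj
    rcases Finset.mem_union.1 hj with hj | hj
    · rw [hrX j hj]; exact h.h_le j hj
    · rw [hrG j hj, hb j hj]
  · intro j hj
    rcases Finset.mem_union.1 hj with hj | hj
    · rw [hrX j hj]; exact h.x_le j hj
    · rw [hrG j hj]
      simp only
      have h1 : (f j % P) % q < q := Nat.mod_lt _ hq0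
      have h2 : a * ((f j % P) % q + 1) ≤ a * q := Nat.mul_le_mul_left a h1
      have h3 : a * q ≤ n := Nat.mul_div_le n a
      have h4 : a * ((f j % P) % q + 1) = a * ((f j % P) % q) + a := by ring
      omega
  · intro j hj
    rcases Finset.mem_union.1 hj with hj | hj
    · rw [hrX j hj]; exact h.y_le j hj
    · rw [hrG j hj]
      simp only
      have h0 : f j % P < q * (n / b) := Nat.mod_lt _ hP0
      have h1 : (f j % P) / q < n / b := Nat.div_lt_of_lt_mul h0
      have h2 : b * ((f j % P) / q + 1) ≤ b * (n / b) := Nat.mul_le_mul_left b h1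
      have h3 : b * (n / b) ≤ n := Nat.mul_div_le n b
      have h4 : b * ((f j % P) / q + 1) = b * ((f j % P) / q) + b := by ring
      omega
  · intro j hj
    rcases Finset.mem_union.1 hj with hj | hj
    · rw [hfX j hj]; exact le_trans (h.fin j hj) hKK
    · refine le_trans (hfG' j hj) ?_
      have h1 : ((f j / P : ℕ) : ℝ) ≤ (G.card : ℝ) / (P : ℝ) := by
        refine le_trans Nat.cast_div_le ?_
        have : (f j : ℝ) ≤ G.card := by exact_mod_cast (hf2 j hj).le
        gcongr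
      have : ℓ * ((f j / P : ℕ) : ℝ) ≤ ℓ * ((G.card : ℝ) / (P : ℝ)) := by gcongr
      linarith
  · intro j hj i hi
    rcases Finset.mem_union.1 hj with hj | hj
    · exact Finset.mem_union_left _ (h.pred_mem j hj i hi)
    · exact Finset.mem_union_left _ (hpred j hj hi)
  · intro j hj i hi
    rcases Finset.mem_union.1 hj with hj | hj
    · rw [hfX i (h.pred_mem j hj i hi), hstX j hj]
      exact h.prec j hj i hi
    · have hiX := hpred j hj hi
      rw [hfX i hiX]
      exact le_trans (h.fin i hiX) (hstGK j hj)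
  · intro i hi j hj hij
    rcases Finset.mem_union.1 hi with hi | hi <;> rcases Finset.mem_union.1 hj with hj | hj
    · rw [hfX i hi, hfX j hj, hstX i hi, hstX j hj, hrX i hi, hrX j hj]
      exact h.excl i hi j hj hij
    · right; left
      rw [hfX i hi]
      exact le_trans (h.fin i hi) (hstGK j hj)
    · right; right
      rw [hfX j hj]
      exact le_trans (h.fin j hj) (hstGK i hi)
    · rcases lt_trichotomy (f i / P) (f j / P) with hlt' | heq | hgt'
      · right; left
        refine le_trans (hfG' i hi) ?_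
        rw [hstG j hj]
        have : ((f i / P : ℕ) : ℝ) + 1 ≤ ((f j / P : ℕ) : ℝ) := by exact_mod_cast hlt'
        nlinarith
      · left
        rw [hrG i hi, hrG j hj]
        apply cells_disjoint hq0
        intro hmod
        apply hij
        apply hf1 hi hj
        rw [← Nat.div_add_mod (f i) P, ← Nat.div_add_mod (f j) P, heq, hmod]
      · right; right
        refine le_trans (hfG' j hj) ?_
        rw [hstG i hi]
        have : ((f j / P : ℕ) : ℝ) + 1 ≤ ((f i / P : ℕ) : ℝ) := by exact_mod_cast hgt'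
        nlinarith

end Pool.Agent.Helper472.Mesh
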