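import Mathlib

open Classical MeasureTheory

namespace Pool.Agent.Helper472.Mesh

/-- if the total weight of intervals covering each point of `(α, β)` is at most `K`, then the
total weighted length of intervals inside is at most `K (β - α)`. -/
lemma work_le {ι : Type*} (X : Finset ι) (c s e : ι → ℝ) (α β K : ℝ)
    (hc : ∀ j ∈ X, 0 ≤ c j) (hs : ∀ j ∈ X, α ≤ s j) (hse : ∀ j ∈ X, s j ≤ e j)
    (he : ∀ j ∈ X, e j ≤ β) (hαβ : α ≤ β) (hK0 : 0 ≤ K)
    (hK : ∀ t, α < t → t < β → ∑ j ∈ X.filter (fun j => s j < t ∧ t < e j), c j ≤ K) :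
    ∑ j ∈ X, c j * (e j - s j) ≤ K * (β - α) := by
  have h1 : ∑ j ∈ X, ENNReal.ofReal (c j) * volume (Set.Ioo (s j) (e j)) =
      ∫⁻ x in Set.Ioo α β, ∑ j ∈ X, ENNReal.ofReal (c j) *
        (Set.Ioo (s j) (e j)).indicator (fun _ => (1 : ENNReal)) x := by
    rw [lintegral_finsetSum]
    · apply Finset.sum_congr rfl
      intro j hj
      rw [lintegral_const_mul _ (by
        exact (measurable_const.indicator measurableSet_Ioo))]
      congr 1
      rw [lintegral_indicator measurableSet_Ioo, setLIntegral_const, one_mul,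
        Measure.restrict_apply measurableSet_Ioo]
      congr 1
      symm
      apply Set.inter_eq_left.2
      intro x hx
      exact ⟨lt_of_le_of_lt (hs j hj) hx.1, lt_of_lt_of_le hx.2 (he j hj)⟩
    · intro j _
      exact (measurable_const.indicator measurableSet_Ioo).const_mul _
  have h2 : ∫⁻ x in Set.Ioo α β, ∑ j ∈ X, ENNReal.ofReal (c j) *
        (Set.Ioo (s j) (e j)).indicator (fun _ => (1 : ENNReal)) x ≤
      ∫⁻ x in Set.Ioo α β, ENNReal.ofReal K := by
    apply setLIntegral_mono' measurableSet_Ioo
    intro x hx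
    have h3 : ∑ j ∈ X, ENNReal.ofReal (c j) *
        (Set.Ioo (s j) (e j)).indicator (fun _ => (1 : ENNReal)) x =
        ENNReal.ofReal (∑ j ∈ X.filter (fun j => s j < x ∧ x < e j), c j) := by
      rw [ENNReal.ofReal_sum_of_nonneg (fun j hj => hc j (Finset.mem_filter.1 hj).1),
        Finset.sum_filter]
      apply Finset.sum_congr rfl
      intro j _
      by_cases h : s j < x ∧ x < e j
      · rw [if_pos h, Set.indicator_of_mem (show x ∈ Set.Ioo (s j) (e j) from h), mul_one]
      · rw [if_neg h, Set.indicator_of_notMem (show x ∉ Set.Ioo (s j) (e j) from h), mul_zero]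
    rw [h3]
    exact ENNReal.ofReal_le_ofReal (hK x hx.1 hx.2)
  rw [setLIntegral_const, Real.volume_Ioo, ← h1] at h2
  have h4 : ∑ j ∈ X, ENNReal.ofReal (c j) * volume (Set.Ioo (s j) (e j)) =
      ENNReal.ofReal (∑ j ∈ X, c j * (e j - s j)) := by
    rw [ENNReal.ofReal_sum_of_nonneg]
    · apply Finset.sum_congr rfl
      intro j hj
      rw [Real.volume_Ioo, ENNReal.ofReal_mul (hc j hj)]
    · intro j hj
      exact mul_nonneg (hc j hj) (sub_nonneg.2 (hse j hj))
  rw [h4, ← ENNReal.ofReal_mul hK0] at h2
  exact (ENNReal.ofReal_le_ofReal_iff (mul_nonneg hK0 (sub_nonneg.2 hαβ))).1 h2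

/-- greedy hitting sets: if all the sets `inc e` have at least `M` elements inside `V`,
then a small set of vertices hits all. -/
lemma greedy {α β : Type*} (V : Finset α) (E : Finset β) (inc : β → Finset α)
    (M : ℝ) (hM : 0 < M) (hV : M ≤ V.card) (hinc : ∀ e ∈ E, inc e ⊆ V ∧ M ≤ ((inc e).card : ℝ))
    (t : ℕ) : ∃ L ⊆ V, L.card ≤ t ∧
      ((E.filter (fun e => Disjoint (inc e) L)).card : ℝ) ≤ E.card * (1 - M / V.card) ^ t := by
  have hV0 : (0 : ℝ) < V.card := lt_of_lt_of_le hM hV
  induction t with
  | zero =>
    refine ⟨∅, Finset.empty_subset _, by simp, ?_⟩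
    simp
  | succ t ih =>
    obtain ⟨L, hLV, hLt, hL⟩ := ih
    set F := E.filter (fun e => Disjoint (inc e) L) with hF
    -- pick the best vertex
    have hVne : V.Nonempty := by
      rw [← Finset.card_pos]
      exact_mod_cast hV0
    have h1 : ∑ v ∈ V, ((F.filter (fun e => v ∈ inc e)).card : ℝ) = ∑ e ∈ F, ((inc e).card : ℝ) := by
      have : ∀ v ∈ V, ((F.filter (fun e => v ∈ inc e)).card : ℝ) =
          ∑ e ∈ F, if v ∈ inc e then (1 : ℝ) else 0 := by
        intro v _
        rw [Finset.card_filter]
        push_cast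
        rfl
      rw [Finset.sum_congr rfl this, Finset.sum_comm]
      apply Finset.sum_congr rfl
      intro e he
      have heE : e ∈ E := (Finset.mem_filter.1 he).1
      rw [← Finset.sum_filter]
      have : V.filter (fun v => v ∈ inc e) = inc e := by
        ext v
        simp only [Finset.mem_filter]
        exact ⟨fun h => h.2, fun h => ⟨(hinc e heE).1 h, h⟩⟩
      rw [this]
      simp
    have h2 : M * F.card ≤ ∑ e ∈ F, ((inc e).card : ℝ) := by
      have : ∑ e ∈ F, M ≤ ∑ e ∈ F, ((inc e).card : ℝ) := by
        apply Finset.sum_le_sum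
        intro e he
        exact (hinc e (Finset.mem_filter.1 he).1).2
      simpa [mul_comm] using this
    have h3 : ∃ v ∈ V, M * F.card / V.card ≤ ((F.filter (fun e => v ∈ inc e)).card : ℝ) := by
      apply Finset.exists_le_of_sum_le hVne
      rw [h1]
      refine le_trans ?_ h2
      rw [Finset.sum_const, nsmul_eq_mul, mul_div_cancel₀ _ hV0.ne']
    obtain ⟨v, hvV, hv⟩ := h3
    refine ⟨insert v L, Finset.insert_subset hvV hLV, ?_, ?_⟩
    · exact le_trans (Finset.card_insert_le _ _) (by omega)
    · have h4 : E.filter (fun e => Disjoint (inc e) (insert v L)) =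
          F.filter (fun e => ¬ v ∈ inc e) := by
        ext e
        simp only [Finset.mem_filter, hF, Finset.disjoint_insert_right]
        tauto
      have h5 : (F.filter (fun e => v ∈ inc e)).card + (F.filter (fun e => ¬ v ∈ inc e)).card =
          F.card := by
        exact Finset.card_filter_add_card_filter_not _
      have h6 : ((F.filter (fun e => v ∈ inc e)).card : ℝ) +
          ((F.filter (fun e => ¬ v ∈ inc e)).card : ℝ) = F.card := by exact_mod_cast h5
      rw [h4, pow_succ]
      have h7 : ((F.filter (fun e => ¬ v ∈ inc e)).card : ℝ) ≤ F.card * (1 - M / V.card) := by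
        have : (F.card : ℝ) * (1 - M / V.card) = F.card - M * F.card / V.card := by ring
        rw [this]
        linarith
      have h8 : 0 ≤ 1 - M / V.card := by
        rw [sub_nonneg, div_le_one hV0]
        exact hV
      calc ((F.filter (fun e => ¬ v ∈ inc e)).card : ℝ) ≤ F.card * (1 - M / V.card) := h7
        _ ≤ (E.card * (1 - M / V.card) ^ t) * (1 - M / V.card) :=
            mul_le_mul_of_nonneg_right hL h8
        _ = _ := by ring

lemma hitting {α β : Type*} (V : Finset α) (E : Finset β) (inc : β → Finset α)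
    (M : ℝ) (hM : 0 < M) (hinc : ∀ e ∈ E, inc e ⊆ V ∧ M ≤ ((inc e).card : ℝ)) (X : ℝ)
    (hX : (E.card : ℝ) ≤ X) (hX1 : 1 ≤ X) :
    ∃ L ⊆ V, (∀ e ∈ E, ¬ Disjoint (inc e) L) ∧
      (L.card : ℝ) ≤ V.card / M * (1 + Real.log X) := by
  have hlogX : 0 ≤ Real.log X := Real.log_nonneg hX1
  rcases E.eq_empty_or_nonempty with rfl | hE
  · refine ⟨∅, Finset.empty_subset _, by simp, ?_⟩
    simp only [Finset.card_empty, Nat.cast_zero]
    positivity
  · obtain ⟨e₀, he₀⟩ := hE
    have hV : M ≤ V.card := by
      refine le_trans (hinc e₀ he₀).2 ?_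
      exact_mod_cast Finset.card_le_card (hinc e₀ he₀).1
    have hV0 : (0 : ℝ) < V.card := lt_of_lt_of_le hM hV
    obtain ⟨L, hLV, hLt, hL⟩ := greedy V E inc M hM hV hinc
      (⌊(V.card : ℝ) / M * Real.log X⌋₊ + 1)
    refine ⟨L, hLV, ?_, ?_⟩
    · set t := ⌊(V.card : ℝ) / M * Real.log X⌋₊ + 1 with ht
      have h1 : (V.card : ℝ) / M * Real.log X < t := by
        rw [ht]
        push_cast
        exact Nat.lt_floor_add_one _
      have hEpos : (0 : ℝ) < E.card := by
        have : 0 < E.card := Finset.card_pos.2 ⟨e₀, he₀⟩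
        exact_mod_cast this
      have h2 : (1 - M / V.card) ^ t ≤ Real.exp (-(M / V.card)) ^ t := by
        apply pow_le_pow_left₀
        · rw [sub_nonneg, div_le_one hV0]
          exact hV
        · have := Real.add_one_le_exp (-(M / (V.card : ℝ)))
          linarith
      have h3 : Real.exp (-(M / V.card)) ^ t = Real.exp (-(t * (M / V.card))) := by
        rw [← Real.exp_nat_mul]
        ring_nf
      have h4 : Real.log X < t * (M / V.card) := by
        have : (V.card : ℝ) / M * Real.log X * (M / V.card) < t * (M / V.card) := by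
          apply mul_lt_mul_of_pos_right h1
          positivity
        have h5 : (V.card : ℝ) / M * Real.log X * (M / V.card) = Real.log X := by
          field_simp
        linarith
      have h5 : (E.card : ℝ) * (1 - M / V.card) ^ t < 1 := by
        calc (E.card : ℝ) * (1 - M / V.card) ^ t ≤ E.card * Real.exp (-(t * (M / V.card))) := by
              rw [← h3]
              exact mul_le_mul_of_nonneg_left h2 hEpos.le
          _ < E.card * Real.exp (-(Real.log X)) := by
              apply mul_lt_mul_of_pos_left _ hEpos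
              exact Real.exp_lt_exp.2 (by linarith)
          _ = E.card / X := by
              rw [Real.exp_neg, Real.exp_log (by linarith)]
              ring
          _ ≤ 1 := by
              rw [div_le_one (by linarith)]
              exact hX
      have h6 : (E.filter (fun e => Disjoint (inc e) L)).card = 0 := by
        have : ((E.filter (fun e => Disjoint (inc e) L)).card : ℝ) < 1 := lt_of_le_of_lt hL h5
        have h7 : (E.filter (fun e => Disjoint (inc e) L)).card < 1 := by exact_mod_cast this
        omega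
      rw [Finset.card_eq_zero, Finset.filter_eq_empty_iff] at h6
      intro e he
      exact h6 he
    · have h1 : (L.card : ℝ) ≤ ⌊(V.card : ℝ) / M * Real.log X⌋₊ + 1 := by exact_mod_cast hLt
      have h2 : (⌊(V.card : ℝ) / M * Real.log X⌋₊ : ℝ) ≤ (V.card : ℝ) / M * Real.log X :=
        Nat.floor_le (by positivity)
      have h3 : 1 ≤ (V.card : ℝ) / M := by
        rw [le_div_iff₀ hM]
        linarith
      linarith

end Pool.Agent.Helper472.Mesh
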