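import Pool.Agent.Helper472.Mesh.Off
import Pool.Agent.Helper472.Mesh.Work

open Classical

namespace Pool.Agent.Helper472.Mesh

variable {n : ℕ}

/-- parameters of the adversary -/
structure Par (n : ℕ) where
  h : ℕ
  k : ℕ
  T : ℝ
  M : ℝ
  lam : ℝ
  eps : ℝ
  n_pos : 1 ≤ n
  k_pos : 1 ≤ k
  k_pow : k ^ h ≤ n
  T_ge : 1 ≤ T
  T_lt : 2 * T < (h : ℝ) * h
  M_gt : 1 + Real.log ((n : ℝ) ^ 4) < M
  k_ge : 2 * ((h : ℝ) * h) * M * T ≤ k
  lam_pos : 0 < lam
  eps_pos : 0 < eps
  small : 2 * T * (4 * eps + 4 * lam * T + lam) + 5 * lam ≤ 1 / T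

namespace Par

variable (p : Par n)

def a (i : ℕ) : ℕ := p.k ^ (i / p.h)
def b (i : ℕ) : ℕ := p.k ^ (i % p.h)
/-- number of shapes -/
def Φ : ℕ := p.h * p.h

/-- bound for the number of leftovers in a phase -/
noncomputable def Y (i : ℕ) : ℝ :=
  p.T * (n : ℝ) ^ 2 / ((p.a i : ℝ) * p.b i) / p.M * (1 + Real.log ((n : ℝ) ^ 4))

/-- cost increment -/
noncomputable def δ : ℝ := 4 * p.eps + 4 * p.lam * p.T + p.lam

lemma T_pos : 0 < p.T := lt_of_lt_of_le one_pos p.T_ge

lemma h_pos : 0 < p.h := by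
  by_contra hc
  have : p.h = 0 := by omega
  have h1 := p.T_lt
  have h2 := p.T_ge
  rw [this] at h1
  simp at h1
  linarith

include p in
lemma log_nonneg : 0 ≤ Real.log ((n : ℝ) ^ 4) := by
  have h1 := p.n_pos
  have h2 : (1 : ℝ) ≤ n := by exact_mod_cast h1
  exact Real.log_nonneg (one_le_pow₀ h2)

lemma M_pos : 0 < p.M := by
  have := p.log_nonneg
  have := p.M_gt
  linarith

lemma Φ_pos : 0 < p.Φ := Nat.mul_pos p.h_pos p.h_pos

lemma T_lt' : 2 * p.T < (p.Φ : ℝ) := by
  have := p.T_lt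
  unfold Φ
  push_cast
  exact this

lemma k_ge' : 2 * (p.Φ : ℝ) * p.M * p.T ≤ p.k := by
  have := p.k_ge
  unfold Φ
  push_cast
  exact this

lemma a_pos (i : ℕ) : 1 ≤ p.a i := Nat.one_le_pow _ _ p.k_pos
lemma b_pos (i : ℕ) : 1 ≤ p.b i := Nat.one_le_pow _ _ p.k_pos

lemma a_le {i : ℕ} (hi : i < p.Φ) : p.a i ≤ n := by
  refine le_trans (Nat.pow_le_pow_right p.k_pos ?_) p.k_pow
  exact (Nat.div_lt_of_lt_mul hi).le

lemma b_le {i : ℕ} : p.b i ≤ n :=
  le_trans (Nat.pow_le_pow_right p.k_pos (Nat.mod_lt _ p.h_pos).le) p.k_pow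

lemma a_pos' (i : ℕ) : (0 : ℝ) < p.a i := by exact_mod_cast p.a_pos i
lemma b_pos' (i : ℕ) : (0 : ℝ) < p.b i := by exact_mod_cast p.b_pos i

lemma Y_nonneg (i : ℕ) : 0 ≤ p.Y i := by
  unfold Y
  have h1 := p.a_pos' i
  have h2 := p.b_pos' i
  have h3 := p.M_pos
  have h4 := p.log_nonneg
  have h5 := p.T_pos
  positivity

lemma δ_pos : 0 < p.δ := by
  unfold δ
  have h1 := p.lam_pos
  have h2 := p.eps_pos
  have h5 := p.T_pos
  positivity

lemma shape_step {i j : ℕ} (hij : i < j) :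
    p.k * p.a i ≤ p.a j ∨ p.k * p.b i ≤ p.b j := by
  unfold a b
  have h1 : i / p.h ≤ j / p.h := Nat.div_le_div_right hij.le
  rcases h1.lt_or_eq with h2 | h2
  · left
    rw [← pow_succ']
    exact Nat.pow_le_pow_right p.k_pos h2
  · right
    have h3 : i % p.h < j % p.h := by
      have e1 := Nat.div_add_mod i p.h
      have e2 := Nat.div_add_mod j p.h
      rw [← h2] at e2
      omega
    rw [← pow_succ']
    exact Nat.pow_le_pow_right p.k_pos h3

end Par

lemma Rect.card_cells (Q : Rect) : Q.cells.card = Q.w * Q.h := by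
  unfold Rect.cells
  rw [Finset.card_product, Nat.card_Ico, Nat.card_Ico]
  congr 1 <;> omega

lemma inter_card_le (Q J : Rect) :
    (Q.cells ∩ J.cells).card ≤ J.w * Q.h ∧ (Q.cells ∩ J.cells).card ≤ Q.w * J.h := by
  unfold Rect.cells
  rw [Finset.product_inter_product, Finset.card_product]
  have e : ∀ a b : ℕ, (Finset.Ico a (a + b)).card = b := by
    intro a b
    rw [Nat.card_Ico]
    omega
  constructor
  · apply Nat.mul_le_mul
    · refine le_trans (Finset.card_le_card Finset.inter_subset_right) ?_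
      rw [e]
    · refine le_trans (Finset.card_le_card Finset.inter_subset_left) ?_
      rw [e]
  · apply Nat.mul_le_mul
    · refine le_trans (Finset.card_le_card Finset.inter_subset_left) ?_
      rw [e]
    · refine le_trans (Finset.card_le_card Finset.inter_subset_right) ?_
      rw [e]

/-- a job of an earlier shape meets only a small part of a rectangle of a later shape -/
lemma inter_small (p : Par n) {i j : ℕ} (hij : i < j) (Q J : Rect)
    (hJw : J.w ≤ p.a i) (hJh : J.h ≤ p.b i) (hQw : (p.a j : ℝ) ≤ p.T * Q.w)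
    (hQh : (p.b j : ℝ) ≤ p.T * Q.h) :
    ((Q.cells ∩ J.cells).card : ℝ) ≤ p.T / p.k * ((Q.w : ℝ) * Q.h) := by
  obtain ⟨h1, h2⟩ := inter_card_le Q J
  have hk : (0 : ℝ) < p.k := by exact_mod_cast p.k_pos
  have h1' : ((Q.cells ∩ J.cells).card : ℝ) ≤ (J.w : ℝ) * Q.h := by exact_mod_cast h1
  have h2' : ((Q.cells ∩ J.cells).card : ℝ) ≤ (Q.w : ℝ) * J.h := by exact_mod_cast h2
  rcases p.shape_step hij with h3 | h3
  · have h3' : (p.k : ℝ) * p.a i ≤ p.a j := by exact_mod_cast h3
    have h4 : (J.w : ℝ) ≤ p.a i := by exact_mod_cast hJw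
    have h5 : (J.w : ℝ) ≤ p.T / p.k * Q.w := by
      rw [div_mul_eq_mul_div, le_div_iff₀ hk]
      nlinarith
    calc ((Q.cells ∩ J.cells).card : ℝ) ≤ (J.w : ℝ) * Q.h := h1'
      _ ≤ (p.T / p.k * Q.w) * Q.h := by gcongr
      _ = _ := by ring
  · have h3' : (p.k : ℝ) * p.b i ≤ p.b j := by exact_mod_cast h3
    have h4 : (J.h : ℝ) ≤ p.b i := by exact_mod_cast hJh
    have h5 : (J.h : ℝ) ≤ p.T / p.k * Q.h := by
      rw [div_mul_eq_mul_div, le_div_iff₀ hk]
      nlinarith
    calc ((Q.cells ∩ J.cells).card : ℝ) ≤ (Q.w : ℝ) * J.h := h2'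
      _ ≤ Q.w * (p.T / p.k * Q.h) := by gcongr
      _ = _ := by ring

/-- append a block of `N'` jobs, all of shape `a × b` and with predecessor set `D` -/
noncomputable def addBlock (B : Inst n) (D : Finset ℕ) (N' a b : ℕ) (ℓ : ℕ → ℝ)
    (hD : ∀ i ∈ D, i < B.N) (ha1 : 1 ≤ a) (han : a ≤ n) (hb1 : 1 ≤ b) (hbn : b ≤ n)
    (hℓ : ∀ j, 0 ≤ ℓ j) : Inst n where
  N := B.N + N'
  a := fun j => if j < B.N then B.a j else a
  b := fun j => if j < B.N then B.b j else b
  len := fun j => if j < B.N then B.len j else ℓ j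
  pred := fun j => if j < B.N then B.pred j else D
  a_pos := by
    intro j _
    by_cases h : j < B.N
    · simp [h, B.a_pos j h]
    · simp [h, ha1]
  a_le := by
    intro j _
    by_cases h : j < B.N
    · simp [h, B.a_le j h]
    · simp [h, han]
  b_pos := by
    intro j _
    by_cases h : j < B.N
    · simp [h, B.b_pos j h]
    · simp [h, hb1]
  b_le := by
    intro j _
    by_cases h : j < B.N
    · simp [h, B.b_le j h]
    · simp [h, hbn]
  len_nonneg := by
    intro j _
    by_cases h : j < B.N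
    · simp [h, B.len_nonneg j h]
    · simp [h, hℓ j]
  pred_lt := by
    intro j _ i hi
    by_cases h : j < B.N
    · simp only [h, if_true] at hi
      exact B.pred_lt j h i hi
    · simp only [h, if_false] at hi
      have := hD i hi
      omega

section block

variable {B : Inst n} {D : Finset ℕ} {N' a b : ℕ} {ℓ : ℕ → ℝ}
    {hD : ∀ i ∈ D, i < B.N} {ha1 : 1 ≤ a} {han : a ≤ n} {hb1 : 1 ≤ b} {hbn : b ≤ n}
    {hℓ : ∀ j, 0 ≤ ℓ j}

lemma addBlock_finish_old (S : Sched) {j : ℕ} (hj : j < B.N) :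
    (addBlock B D N' a b ℓ hD ha1 han hb1 hbn hℓ).finish S j = B.finish S j := by
  simp [Inst.finish, addBlock, hj]

lemma addBlock_finish_new (S : Sched) {j : ℕ} (hj : ¬ j < B.N) :
    (addBlock B D N' a b ℓ hD ha1 han hb1 hbn hℓ).finish S j =
      S.start j + ℓ j * ((a : ℝ) * b) / (((S.rect j).w : ℝ) * ((S.rect j).h : ℝ)) := by
  simp [Inst.finish, addBlock, hj]

lemma FeasOn.addBlock {S : Sched} {X : Finset ℕ} {K : ℝ} (h : FeasOn B S X K) :
    FeasOn (addBlock B D N' a b ℓ hD ha1 han hb1 hbn hℓ) S X K := by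
  have hlt : ∀ j ∈ X, j < B.N := h.lt
  refine ⟨?_, h.start_nonneg, h.w_pos, h.h_pos, ?_, ?_, h.x_le, h.y_le, ?_, ?_, ?_, ?_⟩
  · intro j hj
    exact Nat.lt_add_right _ (h.lt j hj)
  · intro j hj
    have := h.w_le j hj
    simpa [Mesh.addBlock, hlt j hj] using this
  · intro j hj
    have := h.h_le j hj
    simpa [Mesh.addBlock, hlt j hj] using this
  · intro j hj
    rw [addBlock_finish_old S (hlt j hj)]
    exact h.fin j hj
  · intro j hj i hi
    have : i ∈ B.pred j := by simpa [Mesh.addBlock, hlt j hj] using hi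
    exact h.pred_mem j hj i this
  · intro j hj i hi
    have hi' : i ∈ B.pred j := by simpa [Mesh.addBlock, hlt j hj] using hi
    rw [addBlock_finish_old S (hlt i (h.pred_mem j hj i hi'))]
    exact h.prec j hj i hi'
  · intro i hi j hj hij
    rw [addBlock_finish_old S (hlt i hi), addBlock_finish_old S (hlt j hj)]
    exact h.excl i hi j hj hij

end block

/-- the offline side of the state of the adversary -/
structure OffSt (p : Par n) (B : Inst n) (D X : Finset ℕ) (Lf : ℕ → Finset ℕ) (S : Sched) (K : ℝ)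
    (cnt : ℕ → ℝ) : Prop where
  feas : FeasOn B S X K
  K_nonneg : 0 ≤ K
  D_sub : D ⊆ X
  cover : ∀ j < B.N, j ∈ X ∨ ∃ s < p.Φ, j ∈ Lf s
  lf_lt : ∀ s < p.Φ, ∀ j ∈ Lf s, j < B.N
  lf_a : ∀ s < p.Φ, ∀ j ∈ Lf s, B.a j = p.a s
  lf_b : ∀ s < p.Φ, ∀ j ∈ Lf s, B.b j = p.b s
  lf_len : ∀ s < p.Φ, ∀ j ∈ Lf s, B.len j = 2
  lf_pred : ∀ s < p.Φ, ∀ j ∈ Lf s, B.pred j ⊆ X
  lf_cnt : ∀ s < p.Φ, ((Lf s).card : ℝ) ≤ cnt s

lemma OffSt.final {p : Par n} {B : Inst n} {D X : Finset ℕ} {Lf : ℕ → Finset ℕ} {S : Sched}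
    {K : ℝ} {cnt : ℕ → ℝ} (h : OffSt p B D X Lf S K cnt) :
    B.opt ≤ K + ∑ s ∈ Finset.range p.Φ, 2 * (cnt s / (slots n (p.a s) (p.b s) : ℝ) + 1) := by
  have hcnt0 : ∀ s < p.Φ, 0 ≤ cnt s := fun s hs => le_trans (Nat.cast_nonneg _) (h.lf_cnt s hs)
  have key : ∀ m ≤ p.Φ, ∃ S' : Sched, FeasOn B S' (X ∪ (Finset.range m).biUnion Lf)
      (K + ∑ s ∈ Finset.range m, 2 * (cnt s / (slots n (p.a s) (p.b s) : ℝ) + 1)) := by
    intro m
    induction m with
    | zero =>
      intro _
      refine ⟨S, ?_⟩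
      simpa using h.feas
    | succ m ih =>
      intro hm
      obtain ⟨S', hS'⟩ := ih (by omega)
      have hm' : m < p.Φ := by omega
      have hKm : 0 ≤ K + ∑ s ∈ Finset.range m,
          2 * (cnt s / (slots n (p.a s) (p.b s) : ℝ) + 1) := by
        have : 0 ≤ ∑ s ∈ Finset.range m, 2 * (cnt s / (slots n (p.a s) (p.b s) : ℝ) + 1) := by
          apply Finset.sum_nonneg
          intro s hs
          have := hcnt0 s (lt_trans (Finset.mem_range.1 hs) hm')
          positivity
        have := h.K_nonneg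
        linarith
      set X' := X ∪ (Finset.range m).biUnion Lf with hX'
      obtain ⟨S'', hS''⟩ := hS'.extend hKm (Lf m \ X') (p.a m) (p.b m) 2 (by norm_num)
        (fun j hj => h.lf_lt m hm' j (Finset.mem_sdiff.1 hj).1)
        (fun j hj => (Finset.mem_sdiff.1 hj).2)
        (fun j hj => h.lf_a m hm' j (Finset.mem_sdiff.1 hj).1)
        (fun j hj => h.lf_b m hm' j (Finset.mem_sdiff.1 hj).1)
        (fun j hj => (h.lf_len m hm' j (Finset.mem_sdiff.1 hj).1).le)
        (fun j hj => (h.lf_pred m hm' j (Finset.mem_sdiff.1 hj).1).trans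
          Finset.subset_union_left)
        (p.a_pos m) (p.a_le hm') (p.b_pos m) p.b_le
      refine ⟨S'', ?_⟩
      have e1 : X' ∪ Lf m \ X' = X ∪ (Finset.range (m + 1)).biUnion Lf := by
        rw [Finset.union_sdiff_self_eq_union, Finset.range_add_one, Finset.biUnion_insert, hX']
        ext x
        simp only [Finset.mem_union]
        tauto
      rw [e1] at hS''
      have hP0 : (0 : ℝ) < (slots n (p.a m) (p.b m) : ℝ) := by
        exact_mod_cast slots_pos (p.a_pos m) (p.a_le hm') (p.b_pos m) p.b_le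
      have hcc : ((Lf m \ X').card : ℝ) ≤ cnt m := by
        refine le_trans ?_ (h.lf_cnt m hm')
        exact_mod_cast Finset.card_le_card Finset.sdiff_subset
      refine ⟨hS''.lt, hS''.start_nonneg, hS''.w_pos, hS''.h_pos, hS''.w_le, hS''.h_le, hS''.x_le,
        hS''.y_le, ?_, hS''.pred_mem, hS''.prec, hS''.excl⟩
      intro j hj
      refine le_trans (hS''.fin j hj) ?_
      rw [Finset.sum_range_succ, add_assoc]
      gcongr
  obtain ⟨S', hS'⟩ := key p.Φ le_rfl
  have hall : ∀ j < B.N, j ∈ X ∪ (Finset.range p.Φ).biUnion Lf := by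
    intro j hj
    rcases h.cover j hj with h1 | ⟨s, hs, h1⟩
    · exact Finset.mem_union_left _ h1
    · exact Finset.mem_union_right _ (Finset.mem_biUnion.2 ⟨s, Finset.mem_range.2 hs, h1⟩)
  have hF := hS'.feasible hall
  refine le_trans (Inst.opt_le hF) ?_
  apply Inst.makespan_le
  · have : 0 ≤ ∑ s ∈ Finset.range p.Φ, 2 * (cnt s / (slots n (p.a s) (p.b s) : ℝ) + 1) := by
      apply Finset.sum_nonneg
      intro s hs
      have := hcnt0 s (Finset.mem_range.1 hs)
      positivity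
    have := h.K_nonneg
    linarith
  · intro j hj
    exact hS'.fin j (hall j hj)

/-- adding a block on the offline side -/
lemma OffSt.step {p : Par n} {B : Inst n} {D X : Finset ℕ} {Lf : ℕ → Finset ℕ} {S : Sched}
    {K : ℝ} {cnt : ℕ → ℝ} (h : OffSt p B D X Lf S K cnt) {i : ℕ} (hi : i < p.Φ) (N' : ℕ)
    (ℓ : ℕ → ℝ) (hD : ∀ i ∈ D, i < B.N) (hℓ : ∀ j, 0 ≤ ℓ j)
    (L G D' : Finset ℕ) (hL : L ⊆ Finset.Ico B.N (B.N + N'))
    (hG : G ⊆ Finset.Ico B.N (B.N + N') \ L) (hGl : ∀ j ∈ G, ℓ j ≤ p.lam)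
    (hZ : ∀ j ∈ Finset.Ico B.N (B.N + N'), j ∉ L → j ∉ G → ℓ j = 0)
    (hL2 : ∀ j ∈ L, ℓ j = 2) (hD' : D' ⊆ Finset.Ico B.N (B.N + N') \ L) :
    ∃ S' : Sched, OffSt p
      (addBlock B D N' (p.a i) (p.b i) ℓ hD (p.a_pos i) (p.a_le hi) (p.b_pos i) p.b_le hℓ) D'
      (X ∪ (Finset.Ico B.N (B.N + N') \ L)) (Function.update Lf i (Lf i ∪ L)) S'
      (K + p.lam * ((G.card : ℝ) / (slots n (p.a i) (p.b i) : ℝ) + 1))
      (fun s => cnt s + if s = i then (L.card : ℝ) else 0) := by
  set bl := Finset.Ico B.N (B.N + N') with hbl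
  set B' := addBlock B D N' (p.a i) (p.b i) ℓ hD (p.a_pos i) (p.a_le hi) (p.b_pos i) p.b_le hℓ
    with hB'
  have hnew : ∀ j ∈ bl, ¬ j < B.N := by
    intro j hj
    have := (Finset.mem_Ico.1 hj).1
    omega
  have hltN : ∀ j ∈ bl, j < B'.N := by
    intro j hj
    exact (Finset.mem_Ico.1 hj).2
  have hXbl : ∀ j ∈ bl, j ∉ X := fun j hj hjX => hnew j hj (h.feas.lt j hjX)
  have hGbl : ∀ j ∈ G, j ∈ bl := fun j hj => (Finset.mem_sdiff.1 (hG hj)).1
  have haB : ∀ j ∈ bl, B'.a j = p.a i := by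
    intro j hj
    simp [B', addBlock, hnew j hj]
  have hbB : ∀ j ∈ bl, B'.b j = p.b i := by
    intro j hj
    simp [B', addBlock, hnew j hj]
  have hlB : ∀ j ∈ bl, B'.len j = ℓ j := by
    intro j hj
    simp [B', addBlock, hnew j hj]
  have hpB : ∀ j ∈ bl, B'.pred j = D := by
    intro j hj
    simp [B', addBlock, hnew j hj]
  obtain ⟨S₁, hS₁⟩ := (FeasOn.addBlock (N' := N') (ℓ := ℓ) (hD := hD) (ha1 := p.a_pos i)
      (han := p.a_le hi) (hb1 := p.b_pos i) (hbn := p.b_le) (hℓ := hℓ) h.feas).extend h.K_nonneg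
      G (p.a i) (p.b i) p.lam p.lam_pos.le
      (fun j hj => hltN j (hGbl j hj)) (fun j hj => hXbl j (hGbl j hj))
      (fun j hj => haB j (hGbl j hj)) (fun j hj => hbB j (hGbl j hj))
      (fun j hj => by rw [← hB', hlB j (hGbl j hj)]; exact hGl j hj)
      (fun j hj => by rw [← hB', hpB j (hGbl j hj)]; exact h.D_sub)
      (p.a_pos i) (p.a_le hi) (p.b_pos i) p.b_le
  rw [← hB'] at hS₁
  have hlam := p.lam_pos
  have hK1 : 0 ≤ K + p.lam * ((G.card : ℝ) / (slots n (p.a i) (p.b i) : ℝ) + 1) := by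
    have := h.K_nonneg
    positivity
  set Z := (bl \ L) \ G with hZdef
  have hZbl : ∀ j ∈ Z, j ∈ bl := by
    intro j hj
    exact (Finset.mem_sdiff.1 (Finset.mem_sdiff.1 hj).1).1
  obtain ⟨S₂, hS₂⟩ := hS₁.extend hK1 Z (p.a i) (p.b i) 0 le_rfl
      (fun j hj => hltN j (hZbl j hj))
      (fun j hj => by
        intro hc
        rcases Finset.mem_union.1 hc with hc | hc
        · exact hXbl j (hZbl j hj) hc
        · exact (Finset.mem_sdiff.1 hj).2 hc)
      (fun j hj => haB j (hZbl j hj)) (fun j hj => hbB j (hZbl j hj))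
      (fun j hj => by
        rw [hlB j (hZbl j hj)]
        have h1 := Finset.mem_sdiff.1 hj
        have h2 := Finset.mem_sdiff.1 h1.1
        exact (hZ j h2.1 h2.2 h1.2).le)
      (fun j hj => by
        rw [hpB j (hZbl j hj)]
        exact h.D_sub.trans Finset.subset_union_left)
      (p.a_pos i) (p.a_le hi) (p.b_pos i) p.b_le
  have e1 : X ∪ G ∪ Z = X ∪ (bl \ L) := by
    rw [Finset.union_assoc, hZdef, Finset.union_sdiff_of_subset hG]
  rw [e1, zero_mul, add_zero] at hS₂
  refine ⟨S₂, hS₂, hK1, ?_, ?_, ?_, ?_, ?_, ?_, ?_, ?_⟩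
  · exact hD'.trans Finset.subset_union_right
  · intro j hj
    by_cases hjB : j < B.N
    · rcases h.cover j hjB with h1 | ⟨s, hs, h1⟩
      · left; exact Finset.mem_union_left _ h1
      · right
        refine ⟨s, hs, ?_⟩
        by_cases hsi : s = i
        · subst hsi
          simp [h1]
        · rw [Function.update_of_ne hsi]
          exact h1
    · have hjbl : j ∈ bl := Finset.mem_Ico.2 ⟨by omega, hj⟩
      by_cases hjL : j ∈ L
      · right
        exact ⟨i, hi, by simp [hjL]⟩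
      · left
        exact Finset.mem_union_right _ (Finset.mem_sdiff.2 ⟨hjbl, hjL⟩)
  · intro s hs j hj
    by_cases hsi : s = i
    · subst hsi
      rw [Function.update_self] at hj
      rcases Finset.mem_union.1 hj with hj | hj
      · exact Nat.lt_add_right _ (h.lf_lt s hs j hj)
      · exact hltN j (hL hj)
    · rw [Function.update_of_ne hsi] at hj
      exact Nat.lt_add_right _ (h.lf_lt s hs j hj)
  · intro s hs j hj
    by_cases hsi : s = i
    · subst hsi
      rw [Function.update_self] at hj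
      rcases Finset.mem_union.1 hj with hj | hj
      · rw [← h.lf_a s hs j hj]
        simp [B', addBlock, h.lf_lt s hs j hj]
      · exact haB j (hL hj)
    · rw [Function.update_of_ne hsi] at hj
      rw [← h.lf_a s hs j hj]
      simp [B', addBlock, h.lf_lt s hs j hj]
  · intro s hs j hj
    by_cases hsi : s = i
    · subst hsi
      rw [Function.update_self] at hj
      rcases Finset.mem_union.1 hj with hj | hj
      · rw [← h.lf_b s hs j hj]
        simp [B', addBlock, h.lf_lt s hs j hj]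
      · exact hbB j (hL hj)
    · rw [Function.update_of_ne hsi] at hj
      rw [← h.lf_b s hs j hj]
      simp [B', addBlock, h.lf_lt s hs j hj]
  · intro s hs j hj
    by_cases hsi : s = i
    · subst hsi
      rw [Function.update_self] at hj
      rcases Finset.mem_union.1 hj with hj | hj
      · rw [← h.lf_len s hs j hj]
        simp [B', addBlock, h.lf_lt s hs j hj]
      · rw [hlB j (hL hj)]
        exact hL2 j hj
    · rw [Function.update_of_ne hsi] at hj
      rw [← h.lf_len s hs j hj]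
      simp [B', addBlock, h.lf_lt s hs j hj]
  · intro s hs j hj
    by_cases hsi : s = i
    · subst hsi
      rw [Function.update_self] at hj
      rcases Finset.mem_union.1 hj with hj | hj
      · have : B'.pred j = B.pred j := by simp [B', addBlock, h.lf_lt s hs j hj]
        rw [this]
        exact (h.lf_pred s hs j hj).trans Finset.subset_union_left
      · rw [hpB j (hL hj)]
        exact h.D_sub.trans Finset.subset_union_left
    · rw [Function.update_of_ne hsi] at hj
      have : B'.pred j = B.pred j := by simp [B', addBlock, h.lf_lt s hs j hj]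
      rw [this]
      exact (h.lf_pred s hs j hj).trans Finset.subset_union_left
  · intro s hs
    by_cases hsi : s = i
    · subst hsi
      rw [Function.update_self]
      simp only [if_true]
      have h1 : ((Lf s ∪ L).card : ℝ) ≤ (Lf s).card + L.card := by
        exact_mod_cast Finset.card_union_le _ _
      have h2 := h.lf_cnt s hs
      linarith
    · rw [Function.update_of_ne hsi]
      simp only [hsi, if_false, add_zero]
      exact h.lf_cnt s hs

end Pool.Agent.Helper472.Mesh
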