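import Pool.Agent.Helper472.Mesh.Adv

open Classical

namespace Pool.Agent.Helper472.Mesh

variable {n : ℕ}

/-- the instance with a new block with default running times -/
noncomputable def dflt (p : Par n) (i : ℕ) (hi : i < p.Φ) (B : Inst n) (D : Finset ℕ)
    (hD : ∀ i ∈ D, i < B.N) (N' : ℕ) : Inst n :=
  addBlock B D N' (p.a i) (p.b i) (fun _ => p.lam) hD (p.a_pos i) (p.a_le hi) (p.b_pos i) p.b_le
    (fun _ => p.lam_pos.le)

/-- the instance with a new block with modified running times -/
noncomputable def modi (p : Par n) (i : ℕ) (hi : i < p.Φ) (B : Inst n) (D : Finset ℕ)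
    (hD : ∀ i ∈ D, i < B.N) (N' : ℕ) (S : Sched) (t : ℝ) (L R : Finset ℕ)
    (hR : ∀ j ∈ R, S.start j < t) : Inst n :=
  addBlock B D N' (p.a i) (p.b i) (newLen p i S t L R) hD (p.a_pos i) (p.a_le hi) (p.b_pos i)
    p.b_le (newLen_nonneg p i S t L R hR)

/-- jobs of the block running at time `t` -/
noncomputable def runs (I : Inst n) (S : Sched) (lo hi : ℕ) (t : ℝ) : Finset ℕ :=
  (Finset.Ico lo hi).filter (fun j => S.start j < t ∧ t < I.finish S j)

lemma shrink_bounds {a b w h : ℕ} {T ρ : ℝ} (ha : 1 ≤ a) (hb : 1 ≤ b) (hw : w ≤ a) (hh : h ≤ b)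
    (hT : 0 < T) (hab : (a : ℝ) * b ≤ ρ * ((w : ℝ) * h)) (hρT : ρ ≤ T) :
    (a : ℝ) ≤ T * w ∧ (b : ℝ) ≤ T * h ∧ (a : ℝ) * b ≤ T * ((w : ℝ) * h) := by
  have h1 : (a : ℝ) * b ≤ T * ((w : ℝ) * h) := by
    refine hab.trans ?_
    gcongr
  have ha' : (0 : ℝ) < a := by exact_mod_cast ha
  have hb' : (0 : ℝ) < b := by exact_mod_cast hb
  have hw' : (w : ℝ) ≤ a := by exact_mod_cast hw
  have hh' : (h : ℝ) ≤ b := by exact_mod_cast hh
  have hw0 : (0 : ℝ) ≤ w := Nat.cast_nonneg _
  have hh0 : (0 : ℝ) ≤ h := Nat.cast_nonneg _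
  refine ⟨?_, ?_, h1⟩
  · have h2 : (a : ℝ) * b ≤ (T * w) * b := by
      refine h1.trans ?_
      have : (w : ℝ) * h ≤ w * b := by gcongr
      calc T * ((w : ℝ) * h) ≤ T * ((w : ℝ) * b) := by gcongr
        _ = _ := by ring
    exact le_of_mul_le_mul_right h2 hb'
  · have h2 : (b : ℝ) * a ≤ (T * h) * a := by
      have : (w : ℝ) * h ≤ a * h := by gcongr
      calc (b : ℝ) * a = a * b := by ring
        _ ≤ T * ((w : ℝ) * h) := h1
        _ ≤ T * ((a : ℝ) * h) := by gcongr
        _ = _ := by ring
    exact le_of_mul_le_mul_right h2 ha'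

section step

variable {A : Inst n → Sched} {ρ : ℝ} {p : Par n} {θ : ℝ} {i : ℕ} {B : Inst n} {D : Finset ℕ}
    {σ : ℝ} {F : Finset ℕ} {U : Finset (ℕ × ℕ)}

lemma same_mod (hA : Online A) (hi : i < p.Φ) (hD : ∀ i ∈ D, i < B.N) (hr : Ready A B D σ)
    (N' : ℕ) (t : ℝ) (ht : t < σ + 1) (L R : Finset ℕ) (I' : Inst n) (S : Sched)
    (hI' : I' = dflt p i hi B D hD N') (hS : S = A I')
    (hRdef : R = runs I' S B.N (B.N + N') t)
    (hL : L ⊆ R) (hR : ∀ j ∈ R, S.start j < t) :
    SameInfo I' (modi p i hi B D hD N' S t L R hR) S t := by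
  have hN : I'.N = B.N + N' := by rw [hI']; rfl
  have hst : ∀ j, ¬ j < B.N → j < B.N + N' → σ ≤ S.start j := by
    intro j h1 h2
    rw [hS, hI']
    exact hr.new_start hA h1 h2
  have hF := hA.feasible I'
  rw [← hS] at hF
  set B' := modi p i hi B D hD N' S t L R hR with hB'
  refine ⟨by rw [hI']; rfl, fun j _ => by rw [hI']; exact ⟨rfl, rfl, rfl⟩, ?_, ?_⟩
  · intro j hj
    simp only [Inst.done, Finset.mem_filter, Finset.mem_range] at hj
    obtain ⟨hjN, hjf⟩ := hj
    by_cases hjB : j < B.N
    · simp [B', hI', modi, dflt, addBlock, hjB]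
    · have h1 : j ∉ R := by
        rw [hRdef]
        simp only [runs, Finset.mem_filter, not_and, not_lt]
        intro _ _
        exact hjf.le
      have h2 : j ∉ L := fun h => h1 (hL h)
      have h3 : ¬ t ≤ S.start j := by
        have := I'.start_le_finish S hjN
        intro h4
        linarith
      simp [B', hI', modi, dflt, addBlock, hjB, newLen, h1, h2, h3]
  · intro j hj hjd
    have hjN : j < I'.N := by
      simp only [Inst.known, Finset.mem_filter, Finset.mem_range] at hj
      exact hj.1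
    have hjt : t ≤ I'.finish S j := by
      by_contra hc
      push Not at hc
      exact hjd (by simp [Inst.done, hjN, hc])
    by_cases hjB : j < B.N
    · rw [hB', modi, addBlock_finish_old _ hjB]
      rw [hI', dflt, addBlock_finish_old _ hjB] at hjt
      exact hjt
    · have ha0 := p.a_pos' i
      have hb0 := p.b_pos' i
      have hw0 : (0 : ℝ) < (S.rect j).w := by exact_mod_cast hF.w_pos j hjN
      have hh0 : (0 : ℝ) < (S.rect j).h := by exact_mod_cast hF.h_pos j hjN
      rw [hB', modi, addBlock_finish_new _ hjB]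
      unfold newLen
      split_ifs with h1 h2 h3
      · have h4 : σ ≤ S.start j := hst j hjB (by rw [← hN]; exact hjN)
        have hw1 : ((S.rect j).w : ℝ) ≤ p.a i := by
          have := hF.w_le j hjN
          have h5 : I'.a j = p.a i := by simp [hI', dflt, addBlock, hjB]
          rw [h5] at this
          exact_mod_cast this
        have hh1 : ((S.rect j).h : ℝ) ≤ p.b i := by
          have := hF.h_le j hjN
          have h5 : I'.b j = p.b i := by simp [hI', dflt, addBlock, hjB]
          rw [h5] at this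
          exact_mod_cast this
        have h6 : (2 : ℝ) ≤ 2 * ((p.a i : ℝ) * p.b i) /
            (((S.rect j).w : ℝ) * (S.rect j).h) := by
          rw [le_div_iff₀ (by positivity)]
          have : ((S.rect j).w : ℝ) * (S.rect j).h ≤ (p.a i : ℝ) * p.b i := by gcongr
          linarith
        linarith
      · apply le_of_eq
        field_simp
        ring
      · rw [zero_mul, zero_div, add_zero]
        exact h3
      · rw [hI', dflt, addBlock_finish_new _ hjB] at hjt
        exact hjt

/-- the work done before a time of high coverage -/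
lemma fin_work {I : Inst n} {S : Sched} (hS : I.Feasible S) {σ t T ε : ℝ} {lo hi : ℕ}
    (hhi : hi ≤ I.N) (hT : 0 < T) (hε : 0 < ε) (hσt : σ < t)
    (hstart : ∀ j ∈ Finset.Ico lo hi, σ ≤ S.start j)
    (hbefore : ∀ t', σ < t' → t' ≤ t - ε →
      ∑ j ∈ runs I S lo hi t', ((S.rect j).w : ℝ) * (S.rect j).h ≤ (n : ℝ) ^ 2 / T) :
    ∑ j ∈ (Finset.Ico lo hi).filter (fun j => I.finish S j ≤ t),
      ((S.rect j).w : ℝ) * (S.rect j).h * (I.finish S j - S.start j) ≤
      (n : ℝ) ^ 2 / T * (t - σ) + (n : ℝ) ^ 2 * ε := by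
  set G := (Finset.Ico lo hi).filter (fun j => I.finish S j ≤ t) with hG
  set β := max σ (t - ε) with hβ
  have hβ1 : σ ≤ β := le_max_left _ _
  have hβ2 : t - ε ≤ β := le_max_right _ _
  have hβ3 : β ≤ t := max_le hσt.le (by linarith)
  have hGN : ∀ j ∈ G, j < I.N := by
    intro j hj
    have := (Finset.mem_Ico.1 (Finset.mem_filter.1 hj).1).2
    omega
  have hGs : ∀ j ∈ G, σ ≤ S.start j := fun j hj => hstart j (Finset.mem_filter.1 hj).1
  have hGf : ∀ j ∈ G, I.finish S j ≤ t := fun j hj => (Finset.mem_filter.1 hj).2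
  have hGsf : ∀ j ∈ G, S.start j ≤ I.finish S j := fun j hj => I.start_le_finish S (hGN j hj)
  have hn0 : (0 : ℝ) ≤ (n : ℝ) ^ 2 := by positivity
  have h1 : ∑ j ∈ G, ((S.rect j).w : ℝ) * (S.rect j).h *
      (min (I.finish S j) β - min (S.start j) β) ≤ (n : ℝ) ^ 2 / T * (β - σ) := by
    apply work_le G (fun j => ((S.rect j).w : ℝ) * (S.rect j).h) (fun j => min (S.start j) β)
      (fun j => min (I.finish S j) β) σ β ((n : ℝ) ^ 2 / T)
    · intro j _; positivity
    · intro j hj; exact le_min (hGs j hj) hβ1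
    · intro j hj; exact min_le_min_right _ (hGsf j hj)
    · intro j _; exact min_le_right _ _
    · exact hβ1
    · positivity
    · intro t' ht1 ht2
      have ht3 : t' ≤ t - ε := by
        rcases le_total σ (t - ε) with h | h
        · rw [hβ, max_eq_right h] at ht2; exact ht2.le
        · rw [hβ, max_eq_left h] at ht2; linarith
      refine le_trans ?_ (hbefore t' ht1 ht3)
      apply Finset.sum_le_sum_of_subset_of_nonneg
      · intro j hj
        simp only [Finset.mem_filter] at hj
        obtain ⟨hjG, hj1, hj2⟩ := hj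
        simp only [runs, Finset.mem_filter]
        refine ⟨(Finset.mem_filter.1 hjG).1, ?_, lt_of_lt_of_le hj2 (min_le_left _ _)⟩
        rcases min_lt_iff.1 hj1 with h | h
        · exact h
        · linarith
      · intro j _ _; positivity
  have h2 : ∑ j ∈ G, ((S.rect j).w : ℝ) * (S.rect j).h *
      (max (I.finish S j) β - max (S.start j) β) ≤ (n : ℝ) ^ 2 * (t - β) := by
    apply work_le G (fun j => ((S.rect j).w : ℝ) * (S.rect j).h) (fun j => max (S.start j) β)
      (fun j => max (I.finish S j) β) β t ((n : ℝ) ^ 2)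
    · intro j _; positivity
    · intro j hj; exact le_max_right _ _
    · intro j hj; exact max_le_max_right _ (hGsf j hj)
    · intro j hj; exact max_le (hGf j hj) hβ3
    · exact hβ3
    · exact hn0
    · intro t' ht1 ht2
      have : ∀ j ∈ G.filter (fun j => max (S.start j) β < t' ∧ t' < max (I.finish S j) β),
          j ∈ G ∧ S.start j < t' ∧ t' < I.finish S j := by
        intro j hj
        simp only [Finset.mem_filter] at hj
        obtain ⟨hjG, hj1, hj2⟩ := hj
        refine ⟨hjG, lt_of_le_of_lt (le_max_left _ _) hj1, ?_⟩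
        rcases lt_max_iff.1 hj2 with h | h
        · exact h
        · linarith
      exact run_card_le hS _ (fun j hj => hGN j (this j hj).1) t'
        (fun j hj => (this j hj).2.1.le) (fun j hj => (this j hj).2.2)
  have h3 : ∑ j ∈ G, ((S.rect j).w : ℝ) * (S.rect j).h * (I.finish S j - S.start j) =
      (∑ j ∈ G, ((S.rect j).w : ℝ) * (S.rect j).h *
        (min (I.finish S j) β - min (S.start j) β)) +
      ∑ j ∈ G, ((S.rect j).w : ℝ) * (S.rect j).h *
        (max (I.finish S j) β - max (S.start j) β) := by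
    rw [← Finset.sum_add_distrib]
    apply Finset.sum_congr rfl
    intro j _
    have e1 := min_add_max (I.finish S j) β
    have e2 := min_add_max (S.start j) β
    have : I.finish S j - S.start j = (min (I.finish S j) β - min (S.start j) β) +
        (max (I.finish S j) β - max (S.start j) β) := by linarith
    rw [this]
    ring
  rw [h3]
  have h4 : (n : ℝ) ^ 2 / T * (β - σ) ≤ (n : ℝ) ^ 2 / T * (t - σ) := by
    gcongr
  have h5 : (n : ℝ) ^ 2 * (t - β) ≤ (n : ℝ) ^ 2 * ε := by
    apply mul_le_mul_of_nonneg_left _ hn0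
    linarith
  linarith

end step

end Pool.Agent.Helper472.Mesh
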